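import Pool.Agent.H88.A4.Geo

/-!
# W1, completions lemma: proportional admissible pairs, lower bounds

PROOF of `line`. `C2` = constant of `box_card K`, `n = #(K →+* ℂ)`: `C0 = C2 (1 + (2 M C ^ 2) ^ n)`. If `S` is empty: clear. Otherwise let `(u0, v0) ∈ S`. For `(u, v) ∈ S` put `τ = u / u0 ∈ K`; `u = τ u0`, `v = τ v0` (`u0 v = v0 u`, `u0 ≠ 0`).
`M = a u0 + b v0` (`cop`), so `τ M = a u + b v` is integral. The map `(u, v) ↦ τ M` is injective on `S`. Let `T ⊂ K` be its image. Distinct elements differ by a nonzero integral element: norm at least one (`one_le_nm`); `‖φ (τ M)‖ = M ‖φ u‖ / ‖φ u0‖ ≤ M C s ^ 3 C / s ^ 3 = M C ^ 2`,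
differences at most `2 M C ^ 2`. `box_card` with `ν = 1`.

PROOF of `low_bd`. `1 ≤ nm x = ∏ ψ, ‖ψ x‖ = ‖φ x‖ ∏_(ψ ≠ φ) ‖ψ x‖ ≤ ‖φ x‖ H ^ (n - 1) ≤ ‖φ x‖ H ^ n`.

PROOF of `s_low`. `1 ≤ nm u ≤ (C s ^ 3) ^ n`, `n ≥ 1` (`NumberField.Embeddings.card`, `Module.finrank_pos`).

PROOF of `e_low`. The ideal `(m) I (n)` is contained in `(e)`, so the norm of `(e)` divides the norm of the product, which is not 0 (`Ideal.dvd_iff_le`, `map_dvd`, `Ideal.absNorm_mul`), `nm_eq`; `nm (m : K) = m ^ n` (or `nm_eq` only).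
-/

open scoped NumberField

set_option autoImplicit false

noncomputable section

namespace H77.CO

open H88.A4

theorem line (K : Type) [Field K] [NumberField K] (M : ℕ) (hM : M ≠ 0) (C : ℝ) (hC : 1 ≤ C) :
    ∃ C0 : ℝ, 1 ≤ C0 ∧ ∀ s t : ℝ, 0 < s → 0 < t → ∀ S : Finset (𝓞 K × 𝓞 K),
      (∀ x ∈ S, Adm M C s t x.1 x.2) → (∀ x ∈ S, ∀ y ∈ S, x.1 * y.2 = x.2 * y.1) →
      (S.card : ℝ) ≤ C0 := by
  classical
  obtain ⟨C2, hC2, hbox⟩ := box_card K
  have hMR : (0 : ℝ) < M := by exact_mod_cast Nat.pos_of_ne_zero hM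
  have hC0 : 0 < C := by linarith
  refine ⟨max 1 (C2 * (1 + (2 * (M * C ^ 2)) ^ Fintype.card (K →+* ℂ))), le_max_left _ _,
    fun s t hs _ S hS hpr => ?_⟩
  by_cases hne : S.Nonempty
  · obtain ⟨x0, hx0⟩ := hne
    have hadm0 := hS x0 hx0
    obtain ⟨a, b, hab⟩ := Ideal.mem_span_pair.1 hadm0.cop
    -- the integral multiples
    have hkey : ∀ x ∈ S, x0.1 * (a * x.1 + b * x.2) = (M : 𝓞 K) * x.1 := by
      intro x hx
      have h1 := hpr x0 hx0 x hx
      linear_combination b * h1 + x.1 * hab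
    have hMK : (M : 𝓞 K) ≠ 0 := by exact_mod_cast hM
    have hinj : Set.InjOn (fun x : 𝓞 K × 𝓞 K => ((a * x.1 + b * x.2 : 𝓞 K) : K)) S := by
      intro x hx y hy hxy
      have h1 : a * x.1 + b * x.2 = a * y.1 + b * y.2 := NumberField.RingOfIntegers.ext hxy
      have h2 := hkey x hx
      have h3 := hkey y hy
      rw [h1, h3] at h2
      have h4 : x.1 = y.1 := (mul_left_cancel₀ hMK h2).symm
      have h5 := hpr x0 hx0 x hx
      have h6 := hpr x0 hx0 y hy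
      rw [h4, ← h6] at h5
      exact Prod.ext h4 (mul_left_cancel₀ hadm0.u0 h5)
    have hbd : ∀ x ∈ S, ∀ φ : K →+* ℂ, ‖φ ((a * x.1 + b * x.2 : 𝓞 K) : K)‖ ≤ M * C ^ 2 := by
      intro x hx φ
      have h1 : ‖φ ((x0.1 : 𝓞 K) : K)‖ * ‖φ ((a * x.1 + b * x.2 : 𝓞 K) : K)‖ =
          M * ‖φ ((x.1 : 𝓞 K) : K)‖ := by
        rw [← norm_mul, ← map_mul, ← map_mul, hkey x hx, map_mul, map_mul, norm_mul, map_natCast,
          map_natCast, Complex.norm_natCast]
      have h2 := hadm0.uge φ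
      have h3 := (hS x hx).ule φ
      have h4 : 0 ≤ ‖φ ((a * x.1 + b * x.2 : 𝓞 K) : K)‖ := norm_nonneg _
      have h5 : 0 < s ^ 3 := by positivity
      have h6 : s ^ 3 * ‖φ ((a * x.1 + b * x.2 : 𝓞 K) : K)‖ ≤ s ^ 3 * (M * C ^ 2) := by
        calc s ^ 3 * ‖φ ((a * x.1 + b * x.2 : 𝓞 K) : K)‖
            ≤ C * ‖φ ((x0.1 : 𝓞 K) : K)‖ * ‖φ ((a * x.1 + b * x.2 : 𝓞 K) : K)‖ :=
              mul_le_mul_of_nonneg_right h2 h4
          _ = C * (M * ‖φ ((x.1 : 𝓞 K) : K)‖) := by rw [mul_assoc, h1]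
          _ ≤ C * (M * (C * s ^ 3)) := by gcongr
          _ = s ^ 3 * (M * C ^ 2) := by ring
      exact le_of_mul_le_mul_left h6 h5
    have h7 := hbox 1 one_pos (fun _ => 2 * (M * C ^ 2)) (fun _ => by positivity)
      (S.image (fun x : 𝓞 K × 𝓞 K => ((a * x.1 + b * x.2 : 𝓞 K) : K))) (by
        intro z hz w hw hzw
        obtain ⟨x, -, rfl⟩ := Finset.mem_image.1 hz
        obtain ⟨y, -, rfl⟩ := Finset.mem_image.1 hw
        have h8 := one_le_nm K ((a * x.1 + b * x.2) - (a * y.1 + b * y.2)) (by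
          intro h0
          apply hzw
          rw [sub_eq_zero.1 h0])
        have h9 : (((a * x.1 + b * x.2) - (a * y.1 + b * y.2) : 𝓞 K) : K) =
            ((a * x.1 + b * x.2 : 𝓞 K) : K) - ((a * y.1 + b * y.2 : 𝓞 K) : K) :=
          map_sub (algebraMap (𝓞 K) K) _ _
        rw [h9] at h8
        exact h8) (by
        intro z hz w hw φ
        obtain ⟨x, hx, rfl⟩ := Finset.mem_image.1 hz
        obtain ⟨y, hy, rfl⟩ := Finset.mem_image.1 hw
        rw [map_sub]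
        refine (norm_sub_le _ _).trans ?_
        have := hbd x hx φ
        have := hbd y hy φ
        linarith)
    rw [Finset.card_image_of_injOn hinj, Finset.prod_const, Finset.card_univ, div_one] at h7
    exact h7.trans (le_max_right _ _)
  · rw [Finset.not_nonempty_iff_eq_empty] at hne
    rw [hne, Finset.card_empty, Nat.cast_zero]
    exact le_trans zero_le_one (le_max_left _ _)

theorem low_bd {K : Type} [Field K] [NumberField K] {H : ℝ} (hH : 1 ≤ H) {x : 𝓞 K} (hx : x ≠ 0)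
    (hb : Bd H x) (φ : K →+* ℂ) : 1 ≤ ‖φ (x : K)‖ * H ^ Fintype.card (K →+* ℂ) := by
  classical
  have h1 := one_le_nm K x hx
  have h0 : 0 ≤ H := by linarith
  unfold nm at h1
  rw [← Finset.mul_prod_erase Finset.univ (fun ψ : K →+* ℂ => ‖ψ (x : K)‖) (Finset.mem_univ φ)] at h1
  have h2 : ∏ ψ ∈ Finset.univ.erase φ, ‖ψ (x : K)‖ ≤ H ^ Fintype.card (K →+* ℂ) := by
    refine (Finset.prod_le_prod (fun ψ _ => norm_nonneg _) (fun ψ _ => hb ψ)).trans ?_
    rw [Finset.prod_const]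
    apply pow_le_pow_right₀ hH
    rw [← Finset.card_univ]
    exact Finset.card_le_card (Finset.erase_subset _ _)
  exact h1.trans (mul_le_mul_of_nonneg_left h2 (norm_nonneg _))

theorem s_low {K : Type} [Field K] [NumberField K] {M : ℕ} {C s t : ℝ} {u v : 𝓞 K}
    (h : Adm M C s t u v) : 1 ≤ C * s ^ 3 ∧ 1 ≤ C * t ^ 3 := by
  classical
  have hcard : Fintype.card (K →+* ℂ) ≠ 0 := by
    rw [NumberField.Embeddings.card]
    exact Module.finrank_pos.ne'
  obtain ⟨φ⟩ : Nonempty (K →+* ℂ) := Fintype.card_pos_iff.1 (Nat.pos_of_ne_zero hcard)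
  have key : ∀ (x : 𝓞 K) (B : ℝ), x ≠ 0 → (∀ ψ : K →+* ℂ, ‖ψ (x : K)‖ ≤ B) → 1 ≤ B := by
    intro x B hx hB
    have h1 := one_le_nm K x hx
    unfold nm at h1
    have h2 : ∏ ψ : K →+* ℂ, ‖ψ (x : K)‖ ≤ B ^ Fintype.card (K →+* ℂ) := by
      refine (Finset.prod_le_prod (fun ψ _ => norm_nonneg _) (fun ψ _ => hB ψ)).trans ?_
      rw [Finset.prod_const, Finset.card_univ]
    have h3 : 0 ≤ B := (norm_nonneg _).trans (hB φ)
    exact (one_le_pow_iff_of_nonneg h3 hcard).1 (h1.trans h2)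
  exact ⟨key u _ h.u0 h.ule, key v _ h.v0 h.vle⟩

theorem e_low {K : Type} [Field K] [NumberField K] {I : Ideal (𝓞 K)} (hI : I ≠ ⊥) {m : ℕ}
    (hm : m ≠ 0) {e n : 𝓞 K} (hn : n ≠ 0) (h : ∀ x ∈ I, e ∣ (m : 𝓞 K) * x * n) :
    nm (e : K) ≤ (m : ℝ) ^ Fintype.card (K →+* ℂ) * Ideal.absNorm I * nm (n : K) := by
  have h1 : Ideal.span {(m : 𝓞 K)} * I * Ideal.span {n} ≤ Ideal.span {e} := by
    rw [Ideal.mul_le]
    intro y hy z hz
    obtain ⟨c, rfl⟩ := Ideal.mem_span_singleton'.1 hz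
    rw [Ideal.mem_span_singleton]
    refine Submodule.mul_induction_on hy ?_ ?_
    · intro p hp q hq
      obtain ⟨b, rfl⟩ := Ideal.mem_span_singleton'.1 hp
      have h2 := (h q hq).mul_left (b * c)
      have h3 : b * c * ((m : 𝓞 K) * q * n) = b * (m : 𝓞 K) * q * (c * n) := by ring
      rw [h3] at h2
      exact h2
    · intro p q hp hq
      rw [add_mul]
      exact dvd_add hp hq
  have h2 : Ideal.span {e} ∣ Ideal.span {(m : 𝓞 K)} * I * Ideal.span {n} := Ideal.dvd_iff_le.2 h1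
  have h3 : Ideal.absNorm (Ideal.span {e}) ∣
      Ideal.absNorm (Ideal.span {(m : 𝓞 K)} * I * Ideal.span {n}) := map_dvd _ h2
  have hmK : (m : 𝓞 K) ≠ 0 := by exact_mod_cast hm
  have h4 : Ideal.span {(m : 𝓞 K)} * I * Ideal.span {n} ≠ ⊥ := by
    refine mul_ne_zero (mul_ne_zero ?_ hI) ?_
    · exact fun h0 => hmK (Ideal.span_singleton_eq_bot.1 h0)
    · exact fun h0 => hn (Ideal.span_singleton_eq_bot.1 h0)
  have h5 : 0 < Ideal.absNorm (Ideal.span {(m : 𝓞 K)} * I * Ideal.span {n}) :=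
    Nat.pos_of_ne_zero fun h0 => h4 (Ideal.absNorm_eq_zero_iff.1 h0)
  have h6 := Nat.le_of_dvd h5 h3
  rw [map_mul, map_mul] at h6
  have h7 : nm ((m : 𝓞 K) : K) = (m : ℝ) ^ Fintype.card (K →+* ℂ) := by
    have h8 : ((m : 𝓞 K) : K) = (m : K) := map_natCast (algebraMap (𝓞 K) K) m
    rw [h8]
    unfold nm
    simp only [map_natCast, Complex.norm_natCast, Finset.prod_const, Finset.card_univ]
  rw [nm_eq, nm_eq, ← h7, nm_eq]
  exact_mod_cast h6

end H77.CO
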