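import Pool.Agent.H77.CO.Plc
import Pool.Agent.H77.CO.Lin

/-!
# W1, completions lemma: polynomial bounds and the number of classes
-/

open scoped NumberField

set_option autoImplicit false

noncomputable section

namespace H77.CO

open H88.A4

/-- the number of dyadic classes is smaller than every power -/
theorem exL (Cz : ℝ) (hCz : 1 ≤ Cz) (k n : ℕ) (δ : ℝ) (hδ : 0 < δ) : ∃ C4 : ℝ, 0 < C4 ∧
    ∀ H : ℝ, 1 ≤ H → ∃ L : ℕ, Cz * H ^ k ≤ 2 ^ L ∧ (2 * ((L : ℝ) + 1)) ^ n ≤ C4 * H ^ δ := by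
  set δ' : ℝ := δ / (n + 1) with hδ'
  have hδ'0 : 0 < δ' := by positivity
  have hl2 : 0 < Real.log 2 := Real.log_pos (by norm_num)
  have hlC : 0 ≤ Real.log Cz := Real.log_nonneg hCz
  set C5 : ℝ := Real.log Cz / Real.log 2 + k / (δ' * Real.log 2) + 2 with hC5
  have hC5p : 0 < C5 := by positivity
  refine ⟨(2 * C5) ^ n, by positivity, fun H hH => ?_⟩
  have hH0 : 0 < H := by linarith
  have hX : 1 ≤ Cz * H ^ k := one_le_mul_of_one_le_of_one_le hCz (one_le_pow₀ hH)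
  have hX0 : 0 < Cz * H ^ k := by linarith
  refine ⟨⌈Real.logb 2 (Cz * H ^ k)⌉₊, ?_, ?_⟩
  · have h1 := Nat.le_ceil (Real.logb 2 (Cz * H ^ k))
    have h2 : Cz * H ^ k = (2 : ℝ) ^ Real.logb 2 (Cz * H ^ k) :=
      (Real.rpow_logb (by norm_num) (by norm_num) hX0).symm
    calc Cz * H ^ k = (2 : ℝ) ^ Real.logb 2 (Cz * H ^ k) := h2
      _ ≤ (2 : ℝ) ^ ((⌈Real.logb 2 (Cz * H ^ k)⌉₊ : ℕ) : ℝ) :=
        Real.rpow_le_rpow_of_exponent_le (by norm_num) h1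
      _ = 2 ^ ⌈Real.logb 2 (Cz * H ^ k)⌉₊ := Real.rpow_natCast _ _
  · have h3 : (⌈Real.logb 2 (Cz * H ^ k)⌉₊ : ℝ) < Real.logb 2 (Cz * H ^ k) + 1 :=
      Nat.ceil_lt_add_one (Real.logb_nonneg (by norm_num) hX)
    have h4 : Real.logb 2 (Cz * H ^ k) = Real.log Cz / Real.log 2 +
        k * Real.log H / Real.log 2 := by
      rw [Real.logb, Real.log_mul (by linarith) (by positivity), Real.log_pow, add_div]
    have h5 : Real.log H ≤ H ^ δ' / δ' := Real.log_le_rpow_div hH0.le hδ'0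
    have h6 : 1 ≤ H ^ δ' := Real.one_le_rpow hH hδ'0.le
    have h7 : (⌈Real.logb 2 (Cz * H ^ k)⌉₊ : ℝ) + 1 ≤ C5 * H ^ δ' := by
      have e1 : (k : ℝ) * Real.log H / Real.log 2 ≤ k / (δ' * Real.log 2) * H ^ δ' := by
        calc (k : ℝ) * Real.log H / Real.log 2 ≤ k * (H ^ δ' / δ') / Real.log 2 := by gcongr
          _ = k / (δ' * Real.log 2) * H ^ δ' := by field_simp
      have e2 : Real.log Cz / Real.log 2 ≤ Real.log Cz / Real.log 2 * H ^ δ' :=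
        le_mul_of_one_le_right (by positivity) h6
      rw [hC5, add_mul, add_mul]
      linarith
    calc (2 * ((⌈Real.logb 2 (Cz * H ^ k)⌉₊ : ℝ) + 1)) ^ n ≤ (2 * (C5 * H ^ δ')) ^ n := by
          gcongr
      _ = (2 * C5) ^ n * (H ^ δ') ^ n := by rw [← mul_assoc, mul_pow]
      _ ≤ (2 * C5) ^ n * H ^ δ := by
        refine mul_le_mul_of_nonneg_left ?_ (by positivity)
        rw [← Real.rpow_natCast, ← Real.rpow_mul hH0.le]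
        refine Real.rpow_le_rpow_of_exponent_le hH ?_
        rw [hδ', div_mul_eq_mul_div, div_le_iff₀ (by positivity)]
        nlinarith

variable {K : Type} [Field K] [NumberField K]

theorem fD1 {β : Blk ℂ} {H : ℝ} (hβ : β.All (fun z => ‖z‖ ≤ H)) : ‖β.D1‖ ≤ 2 * H ^ 2 := by
  obtain ⟨h1, h2, h3, -, -, -⟩ := hβ
  have hH : 0 ≤ H := (norm_nonneg _).trans h1
  unfold Blk.D1
  refine (norm_sub_le _ _).trans ?_
  rw [norm_mul, norm_pow]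
  have e1 : ‖β.b1‖ * ‖β.b3‖ ≤ H * H := mul_le_mul h1 h3 (norm_nonneg _) hH
  have e2 : ‖β.b2‖ ^ 2 ≤ H ^ 2 := pow_le_pow_left₀ (norm_nonneg _) h2 2
  nlinarith

theorem fD3 {β : Blk ℂ} {H : ℝ} (hβ : β.All (fun z => ‖z‖ ≤ H)) : ‖β.D3‖ ≤ 2 * H ^ 2 := by
  obtain ⟨-, -, -, h1, h2, h3⟩ := hβ
  have hH : 0 ≤ H := (norm_nonneg _).trans h1
  unfold Blk.D3
  refine (norm_sub_le _ _).trans ?_
  rw [norm_mul, norm_pow]
  have e1 : ‖β.c1‖ * ‖β.c3‖ ≤ H * H := mul_le_mul h1 h3 (norm_nonneg _) hH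
  have e2 : ‖β.c2‖ ^ 2 ≤ H ^ 2 := pow_le_pow_left₀ (norm_nonneg _) h2 2
  nlinarith

theorem fD2 {β : Blk ℂ} {H : ℝ} (hβ : β.All (fun z => ‖z‖ ≤ H)) : ‖β.D2‖ ≤ 4 * H ^ 2 := by
  obtain ⟨h1, h2, h3, h4, h5, h6⟩ := hβ
  have hH : 0 ≤ H := (norm_nonneg _).trans h1
  unfold Blk.D2
  refine (norm_sub_le _ _).trans ((add_le_add_left (norm_add_le _ _) _).trans ?_)
  rw [norm_mul, norm_mul, norm_mul, norm_mul, Complex.norm_ofNat]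
  have e1 : ‖β.b1‖ * ‖β.c3‖ ≤ H * H := mul_le_mul h1 h6 (norm_nonneg _) hH
  have e2 : ‖β.b3‖ * ‖β.c1‖ ≤ H * H := mul_le_mul h3 h4 (norm_nonneg _) hH
  have e3 : ‖β.b2‖ * ‖β.c2‖ ≤ H * H := mul_le_mul h2 h5 (norm_nonneg _) hH
  nlinarith

theorem fE {β : Blk ℂ} {H : ℝ} (hβ : β.All (fun z => ‖z‖ ≤ H)) : ‖β.E‖ ≤ 20 * H ^ 4 := by
  have h1 := fD1 hβ
  have h2 := fD2 hβ
  have h3 := fD3 hβ
  have hH : 0 ≤ H := (norm_nonneg _).trans hβ.1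
  unfold Blk.E
  refine (norm_sub_le _ _).trans ?_
  rw [norm_mul, norm_pow]
  have e1 : ‖β.D1‖ * ‖β.D3‖ ≤ (2 * H ^ 2) * (2 * H ^ 2) :=
    mul_le_mul h1 h3 (norm_nonneg _) (by positivity)
  have e2 : ‖β.D2‖ ^ 2 ≤ (4 * H ^ 2) ^ 2 := pow_le_pow_left₀ (norm_nonneg _) h2 2
  calc ‖β.D1‖ * ‖β.D3‖ + ‖β.D2‖ ^ 2 ≤ (2 * H ^ 2) * (2 * H ^ 2) + (4 * H ^ 2) ^ 2 :=
        add_le_add e1 e2
    _ = 20 * H ^ 4 := by ring

theorem feb {β : Blk ℂ} {π : Row ℂ} {H : ℝ} (hβ : β.All (fun z => ‖z‖ ≤ H))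
    (hπ : π.All (fun z => ‖z‖ ≤ H)) : ‖β.eb1 π‖ ≤ 6 * H ^ 3 ∧ ‖β.eb2 π‖ ≤ 6 * H ^ 3 := by
  have hD := fD1 hβ
  obtain ⟨h1, h2, h3, h4, h5, h6⟩ := hβ
  obtain ⟨g1, g2, g3, g4⟩ := hπ
  have hH : 0 ≤ H := (norm_nonneg _).trans h1
  have hm : ∀ {x y : ℂ}, ‖x‖ ≤ H → ‖y‖ ≤ H → ‖x * y‖ ≤ H ^ 2 := by
    intro x y hx hy
    rw [norm_mul, pow_two]
    exact mul_le_mul hx hy (norm_nonneg _) hH
  have e1 : ‖β.b3 * π.p1 - β.b2 * π.p2‖ ≤ 2 * H ^ 2 := by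
    have := norm_sub_le (β.b3 * π.p1) (β.b2 * π.p2)
    have := hm h3 g1
    have := hm h2 g2
    linarith
  have e2 : ‖β.b1 * π.p2 - β.b2 * π.p1‖ ≤ 2 * H ^ 2 := by
    have := norm_sub_le (β.b1 * π.p2) (β.b2 * π.p1)
    have := hm h1 g2
    have := hm h2 g1
    linarith
  have hm2 : ∀ {x y : ℂ}, ‖x‖ ≤ H → ‖y‖ ≤ 2 * H ^ 2 → ‖x * y‖ ≤ 2 * H ^ 3 := by
    intro x y hx hy
    rw [norm_mul]
    calc ‖x‖ * ‖y‖ ≤ H * (2 * H ^ 2) := mul_le_mul hx hy (norm_nonneg _) hH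
      _ = 2 * H ^ 3 := by ring
  constructor
  · unfold Blk.eb1
    have a1 := norm_sub_le (β.c1 * (β.b3 * π.p1 - β.b2 * π.p2) + β.c2 * (β.b1 * π.p2 - β.b2 * π.p1))
      (β.D1 * π.q1)
    have a2 := norm_add_le (β.c1 * (β.b3 * π.p1 - β.b2 * π.p2))
      (β.c2 * (β.b1 * π.p2 - β.b2 * π.p1))
    have a3 := hm2 h4 e1
    have a4 := hm2 h5 e2
    have a5 := hm2 g3 hD
    rw [mul_comm π.q1] at a5
    linarith
  · unfold Blk.eb2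
    have a1 := norm_sub_le (β.c2 * (β.b3 * π.p1 - β.b2 * π.p2) + β.c3 * (β.b1 * π.p2 - β.b2 * π.p1))
      (β.D1 * π.q2)
    have a2 := norm_add_le (β.c2 * (β.b3 * π.p1 - β.b2 * π.p2))
      (β.c3 * (β.b1 * π.p2 - β.b2 * π.p1))
    have a3 := hm2 h5 e1
    have a4 := hm2 h6 e2
    have a5 := hm2 g4 hD
    rw [mul_comm π.q2] at a5
    linarith

end H77.CO
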