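import Pool.Agent.H77.CO.Grp
import Pool.Agent.H77.CO.Bnd
import Pool.Agent.H88.A4.Iface

/-!
# W1: the completions lemma
-/

open scoped NumberField

set_option autoImplicit false

noncomputable section

namespace H77.CO

open H88.A4

variable {K : Type} [Field K] [NumberField K]

/-- the embedding restricted to the integers -/
def fo (φ : K →+* ℂ) : 𝓞 K →+* ℂ := φ.comp (algebraMap (𝓞 K) K)

theorem bm_all (φ : K →+* ℂ) {β : Blk (𝓞 K)} {H : ℝ} (hβ : β.All (Bd H)) :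
    (bm (fo φ) β).All (fun z => ‖z‖ ≤ H) := by
  obtain ⟨h1, h2, h3, h4, h5, h6⟩ := hβ
  exact ⟨h1 φ, h2 φ, h3 φ, h4 φ, h5 φ, h6 φ⟩

theorem rm_all (φ : K →+* ℂ) {π : Row (𝓞 K)} {H : ℝ} (hπ : π.All (Bd H)) :
    (rm (fo φ) π).All (fun z => ‖z‖ ≤ H) := by
  obtain ⟨h1, h2, h3, h4⟩ := hπ
  exact ⟨h1 φ, h2 φ, h3 φ, h4 φ⟩

/-- one embedding: linear forms, box bound -/
theorem emb (φ : K →+* ℂ) {M : ℕ} {C s t H : ℝ} (hC : 1 ≤ C) (hs : 0 < s) (ht : 0 < t)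
    (hH : 1 ≤ H) (hCs : 1 ≤ C * s ^ 3) (hCt : 1 ≤ C * t ^ 3) {β : Blk (𝓞 K)} (hE : β.E ≠ 0)
    (hD : β.D1 ≠ 0) (hβ : β.All (Bd H)) : ∃ a1 b1 a2 b2 : ℂ,
      Dt s t β φ ^ 3 ≤ 16 * ‖φ (β.D1 : K)‖ ^ 2 * ‖a1 * b2 - b1 * a2‖ ^ 2 ∧
      ∀ (π : Row (𝓞 K)) (r r' u v : 𝓞 K), π.All (Bd H) → Sol β π r r' u v → Adm M C s t u v →
        ‖a1 * φ (β.eb1 π : K) + b1 * φ (β.eb2 π : K)‖ *
            ‖a2 * φ (β.eb1 π : K) + b2 * φ (β.eb2 π : K)‖ ≤ Real.sqrt (2 * C * ‖φ (β.E : K)‖) ^ 2 ∧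
          ‖a1 * φ (β.eb1 π : K) + b1 * φ (β.eb2 π : K)‖ ≤
            816 * C * 80 ^ Fintype.card (K →+* ℂ) * H ^ (8 * Fintype.card (K →+* ℂ) + 8) *
              Real.sqrt (2 * C * ‖φ (β.E : K)‖) ∧
          ‖a2 * φ (β.eb1 π : K) + b2 * φ (β.eb2 π : K)‖ ≤
            816 * C * 80 ^ Fintype.card (K →+* ℂ) * H ^ (8 * Fintype.card (K →+* ℂ) + 8) *
              Real.sqrt (2 * C * ‖φ (β.E : K)‖) := by
  set n := Fintype.card (K →+* ℂ) with hn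
  obtain ⟨eD1, eD2, eD3, eE⟩ := bm_D (fo φ) β
  have hφE : ‖φ (β.E : K)‖ = ‖(bm (fo φ) β).E‖ := by rw [eE]; rfl
  have hφD : ‖φ (β.D1 : K)‖ = ‖(bm (fo φ) β).D1‖ := by rw [eD1]; rfl
  have hβ' := bm_all φ hβ
  have hEpos : 0 < ‖φ (β.E : K)‖ := by
    rw [norm_pos_iff, map_ne_zero]
    exact fun h0 => hE (NumberField.RingOfIntegers.coe_injective h0)
  have hDpos : 0 < ‖φ (β.D1 : K)‖ := by
    rw [norm_pos_iff, map_ne_zero]
    exact fun h0 => hD (NumberField.RingOfIntegers.coe_injective h0)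
  have hD1' : (bm (fo φ) β).D1 ≠ 0 := by
    rw [← norm_pos_iff, ← hφD]
    exact hDpos
  obtain ⟨a1, b1, a2, b2, σ1, σ2, hσ1, hσ2, hid, hdt, ha2, hb2, ha1, hb1⟩ :=
    place (bm (fo φ) β) hD1' hs ht hβ'
  refine ⟨a1, b1, a2, b2, ?_, ?_⟩
  · unfold Dt
    rw [eD1, eD2, eD3] at hdt
    exact hdt
  intro π r r' u v hπ hsol hadm
  obtain ⟨ee1, ee2⟩ := bm_eb (fo φ) β π
  have hsol' := bm_sol (fo φ) hsol
  have h1 := eu hsol'
  have h2 := ev' hsol'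
  have hx1 : φ (β.eb1 π : K) = (bm (fo φ) β).eb1 (rm (fo φ) π) := ee1.symm
  have hx2 : φ (β.eb2 π : K) = (bm (fo φ) β).eb2 (rm (fo φ) π) := ee2.symm
  set w := Real.sqrt (2 * C * ‖φ (β.E : K)‖) with hw
  have hwsq : w ^ 2 = 2 * C * ‖φ (β.E : K)‖ := Real.sq_sqrt (by positivity)
  -- the product
  have hprod : ‖a1 * φ (β.eb1 π : K) + b1 * φ (β.eb2 π : K)‖ *
      ‖a2 * φ (β.eb1 π : K) + b2 * φ (β.eb2 π : K)‖ ≤ w ^ 2 := by
    rw [← norm_mul, hx1, hx2, hid, ← h1, ← h2, hwsq]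
    rw [mul_div_cancel_left₀ _ (pow_ne_zero 2 hD1')]
    have hσ1' : ‖σ1‖ ≤ 1 := by rcases hσ1 with h | h <;> rw [h] <;> simp
    have hσ2' : ‖σ2‖ ≤ 1 := by rcases hσ2 with h | h <;> rw [h] <;> simp
    have hu : ‖(fo φ) u‖ ≤ C * s ^ 3 := hadm.ule φ
    have hv : ‖(fo φ) v‖ ≤ C * t ^ 3 := hadm.vle φ
    have e1 : ‖σ1 / (s : ℂ) ^ 3 * ((bm (fo φ) β).E * (fo φ) u)‖ ≤ C * ‖φ (β.E : K)‖ := by
      rw [norm_mul, norm_div, norm_pow, Complex.norm_real, Real.norm_eq_abs, abs_of_pos hs,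
        norm_mul, ← hφE]
      calc ‖σ1‖ / s ^ 3 * (‖φ (β.E : K)‖ * ‖(fo φ) u‖)
          ≤ 1 / s ^ 3 * (‖φ (β.E : K)‖ * (C * s ^ 3)) := by gcongr
        _ = C * ‖φ (β.E : K)‖ := by field_simp
    have e2 : ‖σ2 / (t : ℂ) ^ 3 * ((bm (fo φ) β).E * (fo φ) v)‖ ≤ C * ‖φ (β.E : K)‖ := by
      rw [norm_mul, norm_div, norm_pow, Complex.norm_real, Real.norm_eq_abs, abs_of_pos ht,
        norm_mul, ← hφE]
      calc ‖σ2‖ / t ^ 3 * (‖φ (β.E : K)‖ * ‖(fo φ) v‖)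
          ≤ 1 / t ^ 3 * (‖φ (β.E : K)‖ * (C * t ^ 3)) := by gcongr
        _ = C * ‖φ (β.E : K)‖ := by field_simp
    refine (norm_add_le _ _).trans ?_
    linarith
  refine ⟨hprod, ?_⟩
  -- sizes
  obtain ⟨hy1, hy2⟩ := feb hβ' (rm_all φ hπ)
  rw [← hx1] at hy1
  rw [← hx2] at hy2
  have hBdD : Bd (2 * H ^ 2) β.D1 := by
    intro ψ
    have := fD1 (bm_all ψ hβ)
    rw [(bm_D (fo ψ) β).1] at this
    exact this
  have hBdE : Bd (20 * H ^ 4) β.E := by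
    intro ψ
    have := fE (bm_all ψ hβ)
    rw [(bm_D (fo ψ) β).2.2.2] at this
    exact this
  have hH2 : 1 ≤ H ^ 2 := one_le_pow₀ hH
  have hH4 : 1 ≤ H ^ 4 := one_le_pow₀ hH
  have hlD := low_bd (by linarith : (1 : ℝ) ≤ 2 * H ^ 2) hD hBdD φ
  have hlE := low_bd (by linarith : (1 : ℝ) ≤ 20 * H ^ 4) hE hBdE φ
  rw [← hn] at hlD hlE
  -- the lower bound of w
  have hwl : 1 ≤ w * (20 * H ^ 4) ^ n := by
    have e1 : (1 : ℝ) ^ 2 ≤ (w * (20 * H ^ 4) ^ n) ^ 2 := by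
      rw [mul_pow, hwsq, one_pow]
      have e2 : 1 ≤ (20 * H ^ 4) ^ n := one_le_pow₀ (by linarith)
      calc (1 : ℝ) ≤ ‖φ (β.E : K)‖ * (20 * H ^ 4) ^ n := hlE
        _ ≤ 2 * C * ‖φ (β.E : K)‖ * ((20 * H ^ 4) ^ n) ^ 2 := by
          have e3 : ‖φ (β.E : K)‖ ≤ 2 * C * ‖φ (β.E : K)‖ :=
            le_mul_of_one_le_left hEpos.le (by linarith)
          have e4 : (20 * H ^ 4) ^ n ≤ ((20 * H ^ 4) ^ n) ^ 2 := by
            rw [pow_two]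
            exact le_mul_of_one_le_left (by linarith) e2
          gcongr
    exact (abs_le_of_sq_le_sq' e1 (by positivity)).2
  have hZ : ∀ y : ℝ, y ≤ 12 * H ^ 3 * (68 * C * 4 ^ n * H ^ (4 * n + 5)) →
      y ≤ 816 * C * 80 ^ n * H ^ (8 * n + 8) * w := by
    intro y hy
    refine hy.trans ?_
    calc 12 * H ^ 3 * (68 * C * 4 ^ n * H ^ (4 * n + 5))
        ≤ 12 * H ^ 3 * (68 * C * 4 ^ n * H ^ (4 * n + 5)) * (w * (20 * H ^ 4) ^ n) :=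
          le_mul_of_one_le_right (by positivity) hwl
      _ = 816 * C * 80 ^ n * H ^ (8 * n + 8) * w := by
        rw [mul_pow, show (80 : ℝ) = 4 * 20 by norm_num, mul_pow, ← pow_mul]
        ring
  have hHn : 1 ≤ H ^ (4 * n + 5) := one_le_pow₀ hH
  have h4n : (1 : ℝ) ≤ 4 ^ n := one_le_pow₀ (by norm_num)
  have hcoef : 4 * H / s ^ 3 + 64 * H ^ 5 / (t ^ 3 * ‖(bm (fo φ) β).D1‖ ^ 2) ≤
      68 * C * 4 ^ n * H ^ (4 * n + 5) := by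
    have e1 : 4 * H / s ^ 3 ≤ 4 * C * 4 ^ n * H ^ (4 * n + 5) := by
      rw [div_le_iff₀ (by positivity)]
      have e2 : H ≤ H ^ (4 * n + 5) := by
        calc H = H ^ 1 := (pow_one H).symm
          _ ≤ H ^ (4 * n + 5) := pow_le_pow_right₀ hH (by omega)
      calc 4 * H ≤ 4 * H ^ (4 * n + 5) * 1 * 1 := by linarith
        _ ≤ 4 * H ^ (4 * n + 5) * 4 ^ n * (C * s ^ 3) := by gcongr
        _ = 4 * C * 4 ^ n * H ^ (4 * n + 5) * s ^ 3 := by ring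
    have e3 : 64 * H ^ 5 / (t ^ 3 * ‖(bm (fo φ) β).D1‖ ^ 2) ≤
        64 * C * 4 ^ n * H ^ (4 * n + 5) := by
      rw [← hφD, div_le_iff₀ (by positivity)]
      have e4 : (1 : ℝ) ^ 2 ≤ (‖φ (β.D1 : K)‖ * (2 * H ^ 2) ^ n) ^ 2 :=
        pow_le_pow_left₀ (by norm_num) hlD 2
      rw [one_pow] at e4
      calc 64 * H ^ 5 = 64 * H ^ 5 * 1 * 1 := by ring
        _ ≤ 64 * H ^ 5 * (‖φ (β.D1 : K)‖ * (2 * H ^ 2) ^ n) ^ 2 * (C * t ^ 3) := by gcongr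
        _ = 64 * C * 4 ^ n * H ^ (4 * n + 5) * (t ^ 3 * ‖φ (β.D1 : K)‖ ^ 2) := by
          have e5 : ((2 * H ^ 2) ^ n) ^ 2 = 4 ^ n * H ^ (4 * n) := by
            rw [mul_pow, mul_pow, ← pow_mul, ← pow_mul, ← pow_mul, show (4 : ℝ) = 2 ^ 2 by norm_num,
              ← pow_mul]
            ring_nf
          rw [mul_pow, e5, pow_add]
          ring
    linarith
  have hone : 1 ≤ 68 * C * 4 ^ n * H ^ (4 * n + 5) := by
    have e1 : 1 ≤ C * 4 ^ n := one_le_mul_of_one_le_of_one_le hC h4n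
    have e2 : 1 ≤ C * 4 ^ n * H ^ (4 * n + 5) := one_le_mul_of_one_le_of_one_le e1 hHn
    linarith
  have hlin : ∀ a b : ℂ, ‖a‖ ≤ 68 * C * 4 ^ n * H ^ (4 * n + 5) →
      ‖b‖ ≤ 68 * C * 4 ^ n * H ^ (4 * n + 5) →
      ‖a * φ (β.eb1 π : K) + b * φ (β.eb2 π : K)‖ ≤
        12 * H ^ 3 * (68 * C * 4 ^ n * H ^ (4 * n + 5)) := by
    intro a b ha hb
    refine (norm_add_le _ _).trans ?_
    rw [norm_mul, norm_mul]
    have e1 : ‖a‖ * ‖φ (β.eb1 π : K)‖ ≤ (68 * C * 4 ^ n * H ^ (4 * n + 5)) * (6 * H ^ 3) :=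
      mul_le_mul ha hy1 (norm_nonneg _) (by positivity)
    have e2 : ‖b‖ * ‖φ (β.eb2 π : K)‖ ≤ (68 * C * 4 ^ n * H ^ (4 * n + 5)) * (6 * H ^ 3) :=
      mul_le_mul hb hy2 (norm_nonneg _) (by positivity)
    linarith
  constructor
  · exact hZ _ (hlin a1 b1 (ha1.trans hcoef) (hb1.trans hcoef))
  · exact hZ _ (hlin a2 b2 (ha2.trans hone) (hb2.trans hone))

/-- **STEP 5, the completions lemma.** -/
theorem completions (K : Type) [Field K] [NumberField K] (hL : LocStmt K) :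
    CompletionsStmt K := by
  classical
  intro M hM C hC ε hε
  obtain ⟨m2, hm2, hloc⟩ := hL M hM
  obtain ⟨Cl, hCl, hloc2⟩ := hloc (ε / 2) (half_pos hε)
  obtain ⟨C3, hC3, hgrp⟩ := grp K M hM C hC m2 hm2
  set n := Fintype.card (K →+* ℂ) with hn
  obtain ⟨C4, hC4, hLL⟩ := exL (816 * C * 80 ^ n)
    (by
      have : (1 : ℝ) ≤ 80 ^ n := one_le_pow₀ (by norm_num)
      nlinarith) (8 * n + 8) n (ε / 2) (half_pos hε)
  refine ⟨C3 * ((Cl + 1) * C4), by positivity, ?_⟩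
  intro s t H hs ht hsH htH hH β hE hD hβ
  obtain ⟨gb, gc, h1, h2, h3, h4, h5, cl, hcl, hmain⟩ := hloc2 H hH β hE hD hβ
  refine ⟨gb, gc, h1, h2, h3, h4, h5, ?_⟩
  intro S hS
  have hgb : gb ≠ ⊥ := h1.ne_zero
  have hgc : gc ≠ ⊥ := h2.ne_zero
  set V : ℝ := Ideal.absNorm gb * Ideal.absNorm gc *
    ∏ φ : K →+* ℂ, Dt s t β φ ^ (-(3 / 2) : ℝ) with hV
  have hV0 : 0 ≤ V := by
    rw [hV]
    refine mul_nonneg (by positivity) (Finset.prod_nonneg fun φ _ => ?_)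
    exact Real.rpow_nonneg (Dt_pos hs hD φ).le _
  rcases S.eq_empty_or_nonempty with rfl | ⟨x0, hx0⟩
  · rw [Finset.card_empty, Nat.cast_zero]
    positivity
  obtain ⟨hCs, hCt⟩ := s_low (hS x0 hx0).1
  -- solutions
  have hex : ∀ x : 𝓞 K × 𝓞 K, ∃ (π : Row (𝓞 K)) (r r' : 𝓞 K), x ∈ S →
      π.All (Bd H) ∧ Sol β π r r' x.1 x.2 := by
    intro x
    by_cases hx : x ∈ S
    · obtain ⟨π, r, r', h6, h7⟩ := (hS x hx).2
      exact ⟨π, r, r', fun _ => ⟨h6, h7⟩⟩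
    · exact ⟨⟨0, 0, 0, 0⟩, 0, 0, fun h => absurd h hx⟩
  choose π ρ ρ' hπ using hex
  -- linear forms
  have hem : ∀ φ : K →+* ℂ, ∃ z : ℂ × ℂ × ℂ × ℂ,
      Dt s t β φ ^ 3 ≤ 16 * ‖φ (β.D1 : K)‖ ^ 2 * ‖z.1 * z.2.2.2 - z.2.1 * z.2.2.1‖ ^ 2 ∧
      ∀ x ∈ S,
        ‖z.1 * φ (β.eb1 (π x) : K) + z.2.1 * φ (β.eb2 (π x) : K)‖ *
            ‖z.2.2.1 * φ (β.eb1 (π x) : K) + z.2.2.2 * φ (β.eb2 (π x) : K)‖ ≤
              Real.sqrt (2 * C * ‖φ (β.E : K)‖) ^ 2 ∧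
          ‖z.1 * φ (β.eb1 (π x) : K) + z.2.1 * φ (β.eb2 (π x) : K)‖ ≤
            816 * C * 80 ^ n * H ^ (8 * n + 8) * Real.sqrt (2 * C * ‖φ (β.E : K)‖) ∧
          ‖z.2.2.1 * φ (β.eb1 (π x) : K) + z.2.2.2 * φ (β.eb2 (π x) : K)‖ ≤
            816 * C * 80 ^ n * H ^ (8 * n + 8) * Real.sqrt (2 * C * ‖φ (β.E : K)‖) := by
    intro φ
    obtain ⟨a1, b1, a2, b2, h6, h7⟩ := emb (M := M) φ hC hs ht hH hCs hCt hE hD hβ
    exact ⟨(a1, b1, a2, b2), h6, fun x hx => h7 (π x) (ρ x) (ρ' x) x.1 x.2 (hπ x hx).1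
      (hπ x hx).2 (hS x hx).1⟩
  choose z hz1 hz2 using hem
  obtain ⟨L, hL1, hL2⟩ := hLL H hH
  have hw : ∀ φ : K →+* ℂ, 0 < Real.sqrt (2 * C * ‖φ (β.E : K)‖) := by
    intro φ
    apply Real.sqrt_pos.2
    have : 0 < ‖φ (β.E : K)‖ := by
      rw [norm_pos_iff, map_ne_zero]
      exact fun h0 => hE (NumberField.RingOfIntegers.coe_injective h0)
    positivity
  -- boxes
  have hbx : ∀ (φ : K →+* ℂ) (x : 𝓞 K × 𝓞 K), ∃ i : Bool × ℕ, i.2 ≤ L ∧ (x ∈ S →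
      ‖(z φ).1 * φ (β.eb1 (π x) : K) + (z φ).2.1 * φ (β.eb2 (π x) : K)‖ ≤
          bA (Real.sqrt (2 * C * ‖φ (β.E : K)‖)) i ∧
        ‖(z φ).2.2.1 * φ (β.eb1 (π x) : K) + (z φ).2.2.2 * φ (β.eb2 (π x) : K)‖ ≤
          bB (Real.sqrt (2 * C * ‖φ (β.E : K)‖)) i) := by
    intro φ x
    by_cases hx : x ∈ S
    · obtain ⟨h6, h7, h8⟩ := hz2 φ x hx
      have hw' := hw φ
      have h9 : ∀ y : ℝ, y ≤ 816 * C * 80 ^ n * H ^ (8 * n + 8) *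
          Real.sqrt (2 * C * ‖φ (β.E : K)‖) → y ≤ 2 ^ L * Real.sqrt (2 * C * ‖φ (β.E : K)‖) :=
        fun y hy => hy.trans (mul_le_mul_of_nonneg_right hL1 hw'.le)
      obtain ⟨i, hi1, hi2, hi3⟩ := dya hw' (norm_nonneg _) (norm_nonneg _) h6 (h9 _ h7) (h9 _ h8)
      exact ⟨i, hi1, fun _ => ⟨hi2, hi3⟩⟩
    · exact ⟨(false, 0), Nat.zero_le _, fun h => absurd h hx⟩
  choose i hi1 hi2 using hbx
  -- grouping
  set f : 𝓞 K × 𝓞 K → ℕ × ((K →+* ℂ) → Bool × ℕ) := fun x => (cl (π x), fun φ => i φ x) with hf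
  set R := ⌊Cl * H ^ (ε / 2)⌋₊ with hR
  set T : Finset (ℕ × ((K →+* ℂ) → Bool × ℕ)) := Finset.range (R + 1) ×ˢ
    Fintype.piFinset fun _ => (Finset.univ : Finset Bool) ×ˢ Finset.range (L + 1) with hT
  have himg : S.image f ⊆ T := by
    intro g hg
    obtain ⟨x, -, rfl⟩ := Finset.mem_image.1 hg
    rw [hT, Finset.mem_product]
    refine ⟨?_, ?_⟩
    · rw [Finset.mem_range, Nat.lt_succ_iff]
      exact Nat.le_floor (hcl (π x))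
    · rw [Fintype.mem_piFinset]
      intro φ
      rw [Finset.mem_product, Finset.mem_range, Nat.lt_succ_iff]
      exact ⟨Finset.mem_univ _, hi1 φ x⟩
  have hTc : (T.card : ℝ) ≤ (Cl + 1) * C4 * H ^ ε := by
    rw [hT, Finset.card_product, Finset.card_range, Fintype.card_piFinset]
    simp only [Finset.card_product, Finset.card_univ, Fintype.card_bool, Finset.card_range,
      Finset.prod_const]
    push_cast
    have hHe : 1 ≤ H ^ (ε / 2) := Real.one_le_rpow hH (by positivity)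
    have e1 : (R : ℝ) + 1 ≤ (Cl + 1) * H ^ (ε / 2) := by
      have := Nat.floor_le (show 0 ≤ Cl * H ^ (ε / 2) by positivity)
      rw [← hR] at this
      linarith
    have e2 : H ^ ε = H ^ (ε / 2) * H ^ (ε / 2) := by
      rw [← Real.rpow_add (by linarith)]
      congr 1
      ring
    calc ((R : ℝ) + 1) * (2 * ((L : ℝ) + 1)) ^ n
        ≤ ((Cl + 1) * H ^ (ε / 2)) * (C4 * H ^ (ε / 2)) := by gcongr
      _ = (Cl + 1) * C4 * H ^ ε := by rw [e2]; ring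
  have hfib : ∀ g ∈ S.image f, (S.filter fun x => f x = g).card ≤ ⌊C3 * (1 + V)⌋₊ := by
    intro g hg
    apply Nat.le_floor
    set S0 := S.filter fun x => f x = g with hS0
    have hsub : ∀ x ∈ S0, x ∈ S ∧ cl (π x) = g.1 ∧ ∀ φ, i φ x = g.2 φ := by
      intro x hx
      obtain ⟨hx1, hx2⟩ := Finset.mem_filter.1 hx
      refine ⟨hx1, congrArg Prod.fst hx2, fun φ => ?_⟩
      exact congrFun (congrArg Prod.snd hx2) φ
    refine hgrp s t hs ht β hE hD gb gc hgb hgc (fun φ => (z φ).1) (fun φ => (z φ).2.1)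
      (fun φ => (z φ).2.2.1) (fun φ => (z φ).2.2.2)
      (fun φ => bA (Real.sqrt (2 * C * ‖φ (β.E : K)‖)) (g.2 φ))
      (fun φ => bB (Real.sqrt (2 * C * ‖φ (β.E : K)‖)) (g.2 φ)) ?_ hz1 S0 π ρ ρ' ?_ ?_ ?_
    · intro φ
      obtain ⟨e1, e2, e3⟩ := bAB (hw φ) (g.2 φ)
      refine ⟨e1, e2, ?_⟩
      rw [e3, Real.sq_sqrt (by positivity)]
      linarith
    · intro x hx
      obtain ⟨e1, -, -⟩ := hsub x hx
      exact ⟨(hS x e1).1, (hπ x e1).2⟩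
    · intro x hx φ
      obtain ⟨e1, -, e3⟩ := hsub x hx
      have e4 := hi2 φ x e1
      rw [e3 φ] at e4
      exact e4
    · intro x hx y hy w hw'
      obtain ⟨e1, e2, -⟩ := hsub x hx
      obtain ⟨e4, e5, -⟩ := hsub y hy
      exact hmain C s t x.1 x.2 y.1 y.2 (ρ x) (ρ' x) (ρ y) (ρ' y) (π x) (π y) (hS x e1).1
        (hπ x e1).2 (hS y e4).1 (hπ y e4).2 (e2.trans e5.symm) w hw'
  have h6 := Finset.card_le_mul_card_image S _ hfib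
  have h7 : (S.card : ℝ) ≤ (⌊C3 * (1 + V)⌋₊ : ℝ) * (T.card : ℝ) := by
    have := h6.trans (Nat.mul_le_mul_left _ (Finset.card_le_card himg))
    exact_mod_cast this
  calc (S.card : ℝ) ≤ (⌊C3 * (1 + V)⌋₊ : ℝ) * (T.card : ℝ) := h7
    _ ≤ (C3 * (1 + V)) * ((Cl + 1) * C4 * H ^ ε) := by
      gcongr
      exact Nat.floor_le (by positivity)
    _ = C3 * ((Cl + 1) * C4) * H ^ ε * (1 + V) := by ring

end H77.CO
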