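import Pool.Agent.H77.CO.Fin
import Pool.Agent.H28.A4.LocS

/-!
# W1: the completions lemma for every number field
-/

set_option autoImplicit false

namespace H77.CO

open H88.A4

/-- **STEP 5, the completions lemma**, for every number field. -/
theorem completionsStmt (K : Type) [Field K] [NumberField K] : CompletionsStmt K :=
  completions K (Pool.Agent.H28.A4.locStmt K)

end H77.CO
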