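import Pool.Agent.H77.CO.Grp2
import Pool.Agent.H77.CO.All

/-!
# W1 stage 2: the completions lemma over `k`
-/

open scoped NumberField

set_option autoImplicit false

noncomputable section

namespace H77.CO

open H88.A4

variable {k M : Type} [Field k] [NumberField k] [Field M] [NumberField M] [Algebra k M]

/-- the involution of the ring of integers -/
def tE {τ : M ≃ₐ[k] M} (hτ : Invo k M τ) : 𝓞 M ≃+* 𝓞 M where
  toFun := tO τ
  invFun := tO τ
  left_inv := tO_tO hτ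
  right_inv := tO_tO hτ
  map_mul' := tO_mul τ
  map_add' := tO_add τ

/-- the conjugate ideal -/
theorem conj_ideal {τ : M ≃ₐ[k] M} (hτ : Invo k M τ) {I : Ideal (𝓞 M)} (hI : Squarefree I) :
    ∃ J : Ideal (𝓞 M), Squarefree J ∧ Ideal.absNorm J = Ideal.absNorm I ∧
      ∀ x : 𝓞 M, tO τ x ∈ I → x ∈ J := by
  refine ⟨I.comap (tE hτ), ?_, ?_, fun x hx => hx⟩
  · intro J hJ
    have h1 : Ideal.map (tE hτ) J * Ideal.map (tE hτ) J ∣ I := by
      rw [← Ideal.map_mul, Ideal.dvd_iff_le]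
      have h2 := Ideal.dvd_iff_le.1 hJ
      have h3 : I = Ideal.map (tE hτ) (I.comap (tE hτ)) :=
        (Ideal.map_comap_of_surjective _ (tE hτ).surjective I).symm
      rw [h3]
      exact Ideal.map_mono h2
    have h4 := hI _ h1
    rw [Ideal.isUnit_iff] at h4 ⊢
    have h5 : J = Ideal.comap (tE hτ) (Ideal.map (tE hτ) J) :=
      (Ideal.comap_map_of_bijective _ (tE hτ).bijective).symm
    rw [h5, h4, Ideal.comap_top]
  · rw [Ideal.absNorm_apply, Ideal.absNorm_apply]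
    unfold Submodule.cardQuot
    refine Nat.card_congr ?_
    refine (Ideal.quotientEquiv (I.comap (tE hτ)) I (tE hτ) ?_).toEquiv
    exact (Ideal.map_comap_of_surjective _ (tE hτ).surjective I).symm

/-- **STEP 5', the completions lemma over `k`.** -/
theorem completions2 (k M : Type) [Field k] [NumberField k] [Field M] [NumberField M]
    [Algebra k M] (hL : LocStmt M) : Completions2Stmt k M := by
  classical
  intro τ hτ m hm C hC ε hε
  obtain ⟨m2, hm2, hloc⟩ := hL m hm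
  obtain ⟨Cl, hCl, hloc2⟩ := hloc (ε / 2) (half_pos hε)
  obtain ⟨C3, hC3, hgrp⟩ := grp2 k M τ hτ m hm C hC m2 hm2
  set n := Fintype.card (M →+* ℂ) with hn
  obtain ⟨C4, hC4, hLL⟩ := exL (816 * C * 80 ^ n)
    (by
      have : (1 : ℝ) ≤ 80 ^ n := one_le_pow₀ (by norm_num)
      nlinarith) (8 * n + 8) n (ε / 2) (half_pos hε)
  refine ⟨C3 * ((Cl + 1) * C4), by positivity, ?_⟩
  intro s H hs hsH hH β hβc hE hD hβ
  obtain ⟨gb, gc, h1, h2, -, h4, h5, cl, hcl, hmain⟩ := hloc2 H hH β hE hD hβ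
  have hgb : gb ≠ ⊥ := h1.ne_zero
  have hgc : gc ≠ ⊥ := h2.ne_zero
  set P : ℝ := ∏ φ : M →+* ℂ, Dt s s β φ ^ (-(3 / 4) : ℝ) with hP
  have hP0 : 0 ≤ P := Finset.prod_nonneg fun φ _ => Real.rpow_nonneg (Dt_pos hs hD φ).le _
  set V : ℝ := Real.sqrt (Ideal.absNorm gb * Ideal.absNorm gc) * P with hV
  have hV0 : 0 ≤ V := mul_nonneg (Real.sqrt_nonneg _) hP0
  have key : ∀ S : Finset (𝓞 M), (∀ u ∈ S, Adm m C s s u (tO τ u) ∧ Rep2 τ H β u) →
      (S.card : ℝ) ≤ C3 * ((Cl + 1) * C4) * H ^ ε * (1 + V) := by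
    intro S hS
    rcases S.eq_empty_or_nonempty with rfl | ⟨x0, hx0⟩
    · rw [Finset.card_empty, Nat.cast_zero]
      positivity
    obtain ⟨hCs, -⟩ := s_low (hS x0 hx0).1
    -- solutions
    have hex : ∀ x : 𝓞 M, ∃ (π : Row (𝓞 M)) (r r' : 𝓞 M), x ∈ S →
        π.Cj τ ∧ π.All (Bd H) ∧ Sol β π r r' x (tO τ x) := by
      intro x
      by_cases hx : x ∈ S
      · obtain ⟨π, r, r', h6, h7, h8⟩ := (hS x hx).2
        exact ⟨π, r, r', fun _ => ⟨h6, h7, h8⟩⟩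
      · exact ⟨⟨0, 0, 0, 0⟩, 0, 0, fun h => absurd h hx⟩
    choose π ρ ρ' hπ using hex
    -- linear forms
    have hem : ∀ φ : M →+* ℂ, ∃ z : ℂ × ℂ × ℂ × ℂ,
        Dt s s β φ ^ 3 ≤ 16 * ‖φ (β.D1 : M)‖ ^ 2 * ‖z.1 * z.2.2.2 - z.2.1 * z.2.2.1‖ ^ 2 ∧
        ∀ x ∈ S,
          ‖z.1 * φ (β.eb1 (π x) : M) + z.2.1 * φ (β.eb2 (π x) : M)‖ *
              ‖z.2.2.1 * φ (β.eb1 (π x) : M) + z.2.2.2 * φ (β.eb2 (π x) : M)‖ ≤
                Real.sqrt (2 * C * ‖φ (β.E : M)‖) ^ 2 ∧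
            ‖z.1 * φ (β.eb1 (π x) : M) + z.2.1 * φ (β.eb2 (π x) : M)‖ ≤
              816 * C * 80 ^ n * H ^ (8 * n + 8) * Real.sqrt (2 * C * ‖φ (β.E : M)‖) ∧
            ‖z.2.2.1 * φ (β.eb1 (π x) : M) + z.2.2.2 * φ (β.eb2 (π x) : M)‖ ≤
              816 * C * 80 ^ n * H ^ (8 * n + 8) * Real.sqrt (2 * C * ‖φ (β.E : M)‖) := by
      intro φ
      obtain ⟨a1, b1, a2, b2, h6, h7⟩ := emb (M := m) φ hC hs hs hH hCs hCs hE hD hβ
      exact ⟨(a1, b1, a2, b2), h6, fun x hx => h7 (π x) (ρ x) (ρ' x) x (tO τ x) (hπ x hx).2.1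
        (hπ x hx).2.2 (hS x hx).1⟩
    choose z hz1 hz2 using hem
    obtain ⟨L, hL1, hL2⟩ := hLL H hH
    have hw : ∀ φ : M →+* ℂ, 0 < Real.sqrt (2 * C * ‖φ (β.E : M)‖) := by
      intro φ
      apply Real.sqrt_pos.2
      have : 0 < ‖φ (β.E : M)‖ := by
        rw [norm_pos_iff, map_ne_zero]
        exact fun h0 => hE (NumberField.RingOfIntegers.coe_injective h0)
      positivity
    -- boxes
    have hbx : ∀ (φ : M →+* ℂ) (x : 𝓞 M), ∃ i : Bool × ℕ, i.2 ≤ L ∧ (x ∈ S →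
        ‖(z φ).1 * φ (β.eb1 (π x) : M) + (z φ).2.1 * φ (β.eb2 (π x) : M)‖ ≤
            bA (Real.sqrt (2 * C * ‖φ (β.E : M)‖)) i ∧
          ‖(z φ).2.2.1 * φ (β.eb1 (π x) : M) + (z φ).2.2.2 * φ (β.eb2 (π x) : M)‖ ≤
            bB (Real.sqrt (2 * C * ‖φ (β.E : M)‖)) i) := by
      intro φ x
      by_cases hx : x ∈ S
      · obtain ⟨h6, h7, h8⟩ := hz2 φ x hx
        have hw' := hw φ
        have h9 : ∀ y : ℝ, y ≤ 816 * C * 80 ^ n * H ^ (8 * n + 8) *
            Real.sqrt (2 * C * ‖φ (β.E : M)‖) → y ≤ 2 ^ L * Real.sqrt (2 * C * ‖φ (β.E : M)‖) :=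
          fun y hy => hy.trans (mul_le_mul_of_nonneg_right hL1 hw'.le)
        obtain ⟨i, hi1, hi2, hi3⟩ := dya hw' (norm_nonneg _) (norm_nonneg _) h6 (h9 _ h7) (h9 _ h8)
        exact ⟨i, hi1, fun _ => ⟨hi2, hi3⟩⟩
      · exact ⟨(false, 0), Nat.zero_le _, fun h => absurd h hx⟩
    choose i hi1 hi2 using hbx
    -- grouping
    set f : 𝓞 M → ℕ × ((M →+* ℂ) → Bool × ℕ) := fun x => (cl (π x), fun φ => i φ x) with hf
    set R := ⌊Cl * H ^ (ε / 2)⌋₊ with hR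
    set T : Finset (ℕ × ((M →+* ℂ) → Bool × ℕ)) := Finset.range (R + 1) ×ˢ
      Fintype.piFinset fun _ => (Finset.univ : Finset Bool) ×ˢ Finset.range (L + 1) with hT
    have himg : S.image f ⊆ T := by
      intro g hg
      obtain ⟨x, -, rfl⟩ := Finset.mem_image.1 hg
      rw [hT, Finset.mem_product]
      refine ⟨?_, ?_⟩
      · rw [Finset.mem_range, Nat.lt_succ_iff]
        exact Nat.le_floor (hcl (π x))
      · rw [Fintype.mem_piFinset]
        intro φ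
        rw [Finset.mem_product, Finset.mem_range, Nat.lt_succ_iff]
        exact ⟨Finset.mem_univ _, hi1 φ x⟩
    have hTc : (T.card : ℝ) ≤ (Cl + 1) * C4 * H ^ ε := by
      rw [hT, Finset.card_product, Finset.card_range, Fintype.card_piFinset]
      simp only [Finset.card_product, Finset.card_univ, Fintype.card_bool, Finset.card_range,
        Finset.prod_const]
      push_cast
      have hHe : 1 ≤ H ^ (ε / 2) := Real.one_le_rpow hH (by positivity)
      have e1 : (R : ℝ) + 1 ≤ (Cl + 1) * H ^ (ε / 2) := by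
        have := Nat.floor_le (show 0 ≤ Cl * H ^ (ε / 2) by positivity)
        rw [← hR] at this
        linarith
      have e2 : H ^ ε = H ^ (ε / 2) * H ^ (ε / 2) := by
        rw [← Real.rpow_add (by linarith)]
        congr 1
        ring
      calc ((R : ℝ) + 1) * (2 * ((L : ℝ) + 1)) ^ n
          ≤ ((Cl + 1) * H ^ (ε / 2)) * (C4 * H ^ (ε / 2)) := by gcongr
        _ = (Cl + 1) * C4 * H ^ ε := by rw [e2]; ring
    have hfib : ∀ g ∈ S.image f, (S.filter fun x => f x = g).card ≤ ⌊C3 * (1 + V)⌋₊ := by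
      intro g hg
      apply Nat.le_floor
      set S0 := S.filter fun x => f x = g with hS0
      have hsub : ∀ x ∈ S0, x ∈ S ∧ cl (π x) = g.1 ∧ ∀ φ, i φ x = g.2 φ := by
        intro x hx
        obtain ⟨hx1, hx2⟩ := Finset.mem_filter.1 hx
        refine ⟨hx1, congrArg Prod.fst hx2, fun φ => ?_⟩
        exact congrFun (congrArg Prod.snd hx2) φ
      refine hgrp s hs β hβc hE hD gb gc hgb hgc (fun φ => (z φ).1) (fun φ => (z φ).2.1)
        (fun φ => (z φ).2.2.1) (fun φ => (z φ).2.2.2)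
        (fun φ => bA (Real.sqrt (2 * C * ‖φ (β.E : M)‖)) (g.2 φ))
        (fun φ => bB (Real.sqrt (2 * C * ‖φ (β.E : M)‖)) (g.2 φ)) ?_ hz1 S0 π ρ ρ' ?_ ?_ ?_
      · intro φ
        obtain ⟨e1, e2, e3⟩ := bAB (hw φ) (g.2 φ)
        refine ⟨e1, e2, ?_⟩
        rw [e3, Real.sq_sqrt (by positivity)]
        linarith
      · intro x hx
        obtain ⟨e1, -, -⟩ := hsub x hx
        exact ⟨(hS x e1).1, (hπ x e1).1, (hπ x e1).2.2⟩
      · intro x hx φ
        obtain ⟨e1, -, e3⟩ := hsub x hx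
        have e4 := hi2 φ x e1
        rw [e3 φ] at e4
        exact e4
      · intro x hx y hy w hw'
        obtain ⟨e1, e2, -⟩ := hsub x hx
        obtain ⟨e4, e5, -⟩ := hsub y hy
        exact hmain C s s x (tO τ x) y (tO τ y) (ρ x) (ρ' x) (ρ y) (ρ' y) (π x) (π y) (hS x e1).1
          (hπ x e1).2.2 (hS y e4).1 (hπ y e4).2.2 (e2.trans e5.symm) w hw'
    have h6 := Finset.card_le_mul_card_image S _ hfib
    have h7 : (S.card : ℝ) ≤ (⌊C3 * (1 + V)⌋₊ : ℝ) * (T.card : ℝ) := by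
      have := h6.trans (Nat.mul_le_mul_left _ (Finset.card_le_card himg))
      exact_mod_cast this
    calc (S.card : ℝ) ≤ (⌊C3 * (1 + V)⌋₊ : ℝ) * (T.card : ℝ) := h7
      _ ≤ (C3 * (1 + V)) * ((Cl + 1) * C4 * H ^ ε) := by
        gcongr
        exact Nat.floor_le (by positivity)
      _ = C3 * ((Cl + 1) * C4) * H ^ ε * (1 + V) := by ring
  -- the ideal
  have hfin : ∀ g : Ideal (𝓞 M), Real.sqrt (Ideal.absNorm gb * Ideal.absNorm gc) ≤
      (Ideal.absNorm g : ℝ) → ∀ S : Finset (𝓞 M),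
      (∀ u ∈ S, Adm m C s s u (tO τ u) ∧ Rep2 τ H β u) →
      (S.card : ℝ) ≤ C3 * ((Cl + 1) * C4) * H ^ ε * (1 + Ideal.absNorm g * P) := by
    intro g hg S hS
    refine (key S hS).trans ?_
    have h6 : V ≤ Ideal.absNorm g * P := mul_le_mul_of_nonneg_right hg hP0
    have h7 : 0 ≤ C3 * ((Cl + 1) * C4) * H ^ ε := by positivity
    exact mul_le_mul_of_nonneg_left (by linarith) h7
  obtain ⟨J, hJ1, hJ2, hJ3⟩ := conj_ideal hτ h2
  rcases le_total (Ideal.absNorm gc) (Ideal.absNorm gb) with hle | hle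
  · refine ⟨gb, h1, h4, hfin gb ?_⟩
    rw [Real.sqrt_le_left (by positivity), pow_two]
    gcongr
  · refine ⟨J, hJ1, ⟨hJ3 _ ?_, hJ3 _ ?_, hJ3 _ ?_⟩, hfin J ?_⟩
    · rw [← hβc.1]
      exact h5.1
    · rw [← hβc.2.1]
      exact h5.2.1
    · rw [← hβc.2.2]
      exact h5.2.2.1
    · rw [hJ2, Real.sqrt_le_left (by positivity), pow_two]
      gcongr

/-- **STEP 5'**, proved. -/
theorem completions2Stmt (k M : Type) [Field k] [NumberField k] [Field M] [NumberField M]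
    [Algebra k M] : Completions2Stmt k M :=
  completions2 k M (Pool.Agent.H28.A4.locStmt M)

end H77.CO
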