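import Pool.Agent.H88.A4.Iface2
import Pool.Agent.H88.A4.Geo

/-!
# W1 stage 2, completions lemma over `k`: embeddings of `k` and of `M`
-/

open scoped NumberField

set_option autoImplicit false

noncomputable section

namespace H77.CO

open H88.A4

variable {k M : Type} [Field k] [NumberField k] [Field M] [NumberField M] [Algebra k M]

open Classical in
/-- the embeddings of `M` above an embedding of `k` -/
def ab (k : Type) {M : Type} [Field k] [NumberField k] [Field M] [NumberField M] [Algebra k M]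
    (ψ : k →+* ℂ) : Finset (M →+* ℂ) :=
  Finset.univ.filter fun φ => φ.comp (algebraMap k M) = ψ

theorem ab_card (ψ : k →+* ℂ) : (ab k ψ : Finset (M →+* ℂ)).card = Module.finrank k M := by
  classical
  letI : Algebra k ℂ := ψ.toAlgebra
  have h1 : Fintype.card (M →ₐ[k] ℂ) = Module.finrank k M := AlgHom.card k M ℂ
  rw [← h1, ← Finset.card_univ]
  symm
  refine Finset.card_bij (fun f _ => (f : M →+* ℂ)) ?_ ?_ ?_
  · intro f _
    rw [ab, Finset.mem_filter]
    exact ⟨Finset.mem_univ _, f.comp_algebraMap⟩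
  · intro f _ g _ hfg
    exact AlgHom.coe_ringHom_injective hfg
  · intro φ hφ
    rw [ab, Finset.mem_filter] at hφ
    refine ⟨{ φ with commutes' := fun x => ?_ }, Finset.mem_univ _, ?_⟩
    · exact RingHom.congr_fun hφ.2 x
    · ext x
      rfl

theorem mem_ab {ψ : k →+* ℂ} {φ : M →+* ℂ} : φ ∈ ab k ψ ↔ φ.comp (algebraMap k M) = ψ := by
  unfold ab
  simp

theorem ab_prod (f : (M →+* ℂ) → ℝ) : ∏ ψ : k →+* ℂ, ∏ φ ∈ ab k ψ, f φ = ∏ φ : M →+* ℂ, f φ := by
  classical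
  rw [← Finset.prod_fiberwise Finset.univ (fun φ : M →+* ℂ => φ.comp (algebraMap k M)) f]
  refine Finset.prod_congr rfl fun ψ _ => Finset.prod_congr ?_ fun _ _ => rfl
  ext φ
  rw [mem_ab, Finset.mem_filter]
  simp

/-- the norms from `k` and from `M` -/
theorem nm_alg (hd : Module.finrank k M = 2) (x : k) : nm (algebraMap k M x) = nm x ^ 2 := by
  unfold nm
  rw [← ab_prod (k := k), ← Finset.prod_pow]
  refine Finset.prod_congr rfl fun ψ _ => ?_
  have h1 : ∀ φ ∈ ab k ψ, ‖φ (algebraMap k M x)‖ = ‖ψ x‖ := by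
    intro φ hφ
    rw [← mem_ab.1 hφ]
    rfl
  rw [Finset.prod_congr rfl h1, Finset.prod_const, ab_card, hd]

/-- a choice of the embedding with the smaller value -/
theorem ab_min (hd : Module.finrank k M = 2) {c : (M →+* ℂ) → ℝ} (hc : ∀ φ, 0 ≤ c φ) :
    ∃ e : (k →+* ℂ) → (M →+* ℂ), (∀ ψ, (e ψ).comp (algebraMap k M) = ψ) ∧
      (∏ ψ, c (e ψ)) ^ 2 ≤ ∏ φ, c φ := by
  classical
  have h1 : ∀ ψ : k →+* ℂ, ∃ φ ∈ (ab k ψ : Finset (M →+* ℂ)), ∀ φ' ∈ (ab k ψ : Finset (M →+* ℂ)),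
      c φ ≤ c φ' := by
    intro ψ
    apply Finset.exists_min_image
    rw [← Finset.card_pos, ab_card, hd]
    norm_num
  choose e he1 he2 using h1
  refine ⟨e, fun ψ => ?_, ?_⟩
  · exact mem_ab.1 (he1 ψ)
  · have h0 := ab_prod (k := k) c
    rw [← h0, ← Finset.prod_pow]
    refine Finset.prod_le_prod (fun ψ _ => pow_nonneg (hc _) 2) fun ψ _ => ?_
    have h2 : c (e ψ) ^ 2 = ∏ _φ ∈ (ab k ψ : Finset (M →+* ℂ)), c (e ψ) := by
      rw [Finset.prod_const, ab_card, hd]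
    rw [h2]
    exact Finset.prod_le_prod (fun _ _ => hc _) fun φ hφ => he2 ψ φ hφ

/-! ### the involution -/

theorem tO_mul (τ : M ≃ₐ[k] M) (x y : 𝓞 M) : tO τ (x * y) = tO τ x * tO τ y := by
  apply NumberField.RingOfIntegers.coe_injective
  exact map_mul τ (x : M) (y : M)

theorem tO_add (τ : M ≃ₐ[k] M) (x y : 𝓞 M) : tO τ (x + y) = tO τ x + tO τ y := by
  apply NumberField.RingOfIntegers.coe_injective
  exact map_add τ (x : M) (y : M)

theorem tO_sub (τ : M ≃ₐ[k] M) (x y : 𝓞 M) : tO τ (x - y) = tO τ x - tO τ y := by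
  apply NumberField.RingOfIntegers.coe_injective
  exact map_sub τ (x : M) (y : M)

theorem tO_tO {τ : M ≃ₐ[k] M} (hτ : Invo k M τ) (x : 𝓞 M) : tO τ (tO τ x) = x := by
  apply NumberField.RingOfIntegers.coe_injective
  exact hτ.inv x

/-- the bracket is fixed -/
theorem br_fix {τ : M ≃ₐ[k] M} (hτ : Invo k M τ) {β : Blk (𝓞 M)} (hβ : β.Cj τ)
    {π π' : Row (𝓞 M)} (hπ : π.Cj τ) (hπ' : π'.Cj τ) :
    tO τ (β.br π π') = β.br π π' := by
  obtain ⟨h1, h2, h3⟩ := hβ
  obtain ⟨h4, h5⟩ := hπ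
  obtain ⟨h6, h7⟩ := hπ'
  have g1 := congrArg (tO τ) h1
  have g2 := congrArg (tO τ) h2
  have g3 := congrArg (tO τ) h3
  have g4 := congrArg (tO τ) h4
  have g5 := congrArg (tO τ) h5
  have g6 := congrArg (tO τ) h6
  have g7 := congrArg (tO τ) h7
  rw [tO_tO hτ] at g1 g2 g3 g4 g5 g6 g7
  unfold Blk.br Blk.D1 Blk.D3
  simp only [pow_two, tO_mul, tO_add, tO_sub, g1, g2, g3, g4, g5, g6, g7, ← h1, ← h2, ← h3, ← h4,
    ← h5, ← h6, ← h7]
  ring

end H77.CO
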