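import Pool.Agent.H88.A4.Defs

/-!
# W1, completions lemma: the algebraic identities

PROOFS. `eu`: `linear_combination (-β.E) * h.e1 + β.D1 * (β.D1 * h.e3 - β.D2 * h.e2)` after unfolding `E D1 D2 D3 Ab Ac eb1 eb2`. `ev`: `linear_combination (-β.E) * h.e4 + β.D3 * (β.D3 * h.e2 - β.D2 * h.e3)`.
`m1_eb`, `m2_eb`, `eb_br`, `yc_co`: `ring` after unfolding. `disc`: `field_simp`, `ring`.
-/

set_option autoImplicit false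

namespace H77.CO

open H88.A4

section ring

variable {R : Type} [CommRing R]

/-- first coordinate of `b adj(c) η` -/
def M1 (β : Blk R) (x y : R) : R := β.b1 * (β.c3 * x - β.c2 * y) + β.b2 * (β.c1 * y - β.c2 * x)

/-- second coordinate of `b adj(c) η` -/
def M2 (β : Blk R) (x y : R) : R := β.b2 * (β.c3 * x - β.c2 * y) + β.b3 * (β.c1 * y - β.c2 * x)

theorem eu {β : Blk R} {π : Row R} {r r' u v : R} (h : Sol β π r r' u v) :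
    β.E * u = β.Ab (β.eb1 π) (β.eb2 π) (β.eb1 π) (β.eb2 π) := by
  have e1 := h.e1
  have e2 := h.e2
  have e3 := h.e3
  simp only [Blk.E, Blk.D1, Blk.D2, Blk.D3, Blk.Ab, Blk.Ac, Blk.eb1, Blk.eb2, Blk.ec1, Blk.ec2, Blk.br] at e1 e2 e3 ⊢
  linear_combination (-((β.b1 * β.b3 - β.b2 ^ 2) * (β.c1 * β.c3 - β.c2 ^ 2) - (β.b1 * β.c3 + β.b3 * β.c1 - 2 * β.b2 * β.c2) ^ 2)) * e1 + (β.b1 * β.b3 - β.b2 ^ 2) * ((β.b1 * β.b3 - β.b2 ^ 2) * e3 - (β.b1 * β.c3 + β.b3 * β.c1 - 2 * β.b2 * β.c2) * e2)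

theorem ev {β : Blk R} {π : Row R} {r r' u v : R} (h : Sol β π r r' u v) :
    β.E * v = β.Ac (β.ec1 π) (β.ec2 π) (β.ec1 π) (β.ec2 π) := by
  have e4 := h.e4
  have e2 := h.e2
  have e3 := h.e3
  simp only [Blk.E, Blk.D1, Blk.D2, Blk.D3, Blk.Ab, Blk.Ac, Blk.eb1, Blk.eb2, Blk.ec1, Blk.ec2, Blk.br] at e4 e2 e3 ⊢
  linear_combination (-((β.b1 * β.b3 - β.b2 ^ 2) * (β.c1 * β.c3 - β.c2 ^ 2) - (β.b1 * β.c3 + β.b3 * β.c1 - 2 * β.b2 * β.c2) ^ 2)) * e4 + (β.c1 * β.c3 - β.c2 ^ 2) * ((β.c1 * β.c3 - β.c2 ^ 2) * e2 - (β.b1 * β.c3 + β.b3 * β.c1 - 2 * β.b2 * β.c2) * e3)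

theorem m1_eb (β : Blk R) (π : Row R) : M1 β (β.eb1 π) (β.eb2 π) = -(β.D1 * β.ec1 π) := by
  simp only [M1, Blk.D1, Blk.D3, Blk.eb1, Blk.eb2, Blk.ec1]
  ring

theorem m2_eb (β : Blk R) (π : Row R) : M2 β (β.eb1 π) (β.eb2 π) = -(β.D1 * β.ec2 π) := by
  simp only [M2, Blk.D1, Blk.D3, Blk.eb1, Blk.eb2, Blk.ec2]
  ring

/-- `D1 ^ 2 E v` as a form in `η_b` -/
theorem ev' {β : Blk R} {π : Row R} {r r' u v : R} (h : Sol β π r r' u v) :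
    β.D1 ^ 2 * (β.E * v) = β.Ac (M1 β (β.eb1 π) (β.eb2 π)) (M2 β (β.eb1 π) (β.eb2 π))
      (M1 β (β.eb1 π) (β.eb2 π)) (M2 β (β.eb1 π) (β.eb2 π)) := by
  rw [ev h, m1_eb, m2_eb]
  simp only [Blk.Ac]
  ring

theorem eb_br (β : Blk R) (π π' : Row R) :
    β.eb1 π * β.eb2 π' - β.eb2 π * β.eb1 π' = β.D1 * β.br π π' ∨
      β.eb1 π * β.eb2 π' - β.eb2 π * β.eb1 π' = -(β.D1 * β.br π π') := by
  left
  simp only [Blk.D1, Blk.D3, Blk.eb1, Blk.eb2, Blk.br]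
  ring

/-- the coefficients of `Ac (M1, M2)` -/
def cA (β : Blk R) : R := β.c3 * (β.b1 * β.c3 - β.b2 * β.c2) ^ 2 -
  2 * β.c2 * ((β.b1 * β.c3 - β.b2 * β.c2) * (β.b2 * β.c3 - β.b3 * β.c2)) +
  β.c1 * (β.b2 * β.c3 - β.b3 * β.c2) ^ 2

def cB (β : Blk R) : R := 2 * (β.c3 * ((β.b1 * β.c3 - β.b2 * β.c2) * (β.b2 * β.c1 - β.b1 * β.c2)) -
  β.c2 * ((β.b1 * β.c3 - β.b2 * β.c2) * (β.b3 * β.c1 - β.b2 * β.c2) +
    (β.b2 * β.c1 - β.b1 * β.c2) * (β.b2 * β.c3 - β.b3 * β.c2)) +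
  β.c1 * ((β.b2 * β.c3 - β.b3 * β.c2) * (β.b3 * β.c1 - β.b2 * β.c2)))

def cC (β : Blk R) : R := β.c3 * (β.b2 * β.c1 - β.b1 * β.c2) ^ 2 -
  2 * β.c2 * ((β.b2 * β.c1 - β.b1 * β.c2) * (β.b3 * β.c1 - β.b2 * β.c2)) +
  β.c1 * (β.b3 * β.c1 - β.b2 * β.c2) ^ 2

theorem yc_co (β : Blk R) (x y : R) : β.Ac (M1 β x y) (M2 β x y) (M1 β x y) (M2 β x y) =
    cA β * x ^ 2 + cB β * (x * y) + cC β * y ^ 2 := by
  simp only [Blk.Ac, M1, M2, cA, cB, cC]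
  ring

end ring

/-- the discriminant of `s1 Yb + s2 Yc` in the coordinates `η_b` -/
theorem disc {F : Type} [Field F] (β : Blk F) (h : β.D1 ≠ 0) (s1 s2 : F) :
    (s1 * (-(2 * β.b2)) + s2 * (cB β / β.D1 ^ 2)) ^ 2 -
      4 * (s1 * β.b3 + s2 * (cA β / β.D1 ^ 2)) * (s1 * β.b1 + s2 * (cC β / β.D1 ^ 2)) =
    -(4 * (s1 ^ 2 * β.D1 ^ 3 + s1 * s2 * (β.D2 ^ 3 - 3 * β.D1 * β.D2 * β.D3) +
      s2 ^ 2 * β.D3 ^ 3)) / β.D1 ^ 2 := by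
  have h2 : β.D1 ^ 2 ≠ 0 := pow_ne_zero _ h
  have key : (s1 * (-(2 * β.b2)) * β.D1 ^ 2 + s2 * cB β) ^ 2 -
      4 * (s1 * β.b3 * β.D1 ^ 2 + s2 * cA β) * (s1 * β.b1 * β.D1 ^ 2 + s2 * cC β) =
      -(4 * (s1 ^ 2 * β.D1 ^ 3 + s1 * s2 * (β.D2 ^ 3 - 3 * β.D1 * β.D2 * β.D3) +
      s2 ^ 2 * β.D3 ^ 3)) * β.D1 ^ 2 := by
    simp only [cA, cB, cC, Blk.D1, Blk.D2, Blk.D3]
    ring
  rw [eq_div_iff h2]
  have e1 : s1 * (-(2 * β.b2)) + s2 * (cB β / β.D1 ^ 2) =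
      (s1 * (-(2 * β.b2)) * β.D1 ^ 2 + s2 * cB β) / β.D1 ^ 2 := by
    field_simp
  have e2 : s1 * β.b3 + s2 * (cA β / β.D1 ^ 2) =
      (s1 * β.b3 * β.D1 ^ 2 + s2 * cA β) / β.D1 ^ 2 := by
    field_simp
  have e3 : s1 * β.b1 + s2 * (cC β / β.D1 ^ 2) =
      (s1 * β.b1 * β.D1 ^ 2 + s2 * cC β) / β.D1 ^ 2 := by
    field_simp
  rw [e1, e2, e3]
  have e4 : ∀ X Y Z D : F, D ≠ 0 → (X / D) ^ 2 - 4 * (Y / D) * (Z / D) = (X ^ 2 - 4 * Y * Z) / D ^ 2 := by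
    intro X Y Z D hD
    field_simp
  rw [e4 _ _ _ _ h2, key]
  field_simp

/-- the image of a block under a ring homomorphism -/
def bm {R S : Type} [CommRing R] [CommRing S] (f : R →+* S) (β : Blk R) : Blk S :=
  ⟨f β.b1, f β.b2, f β.b3, f β.c1, f β.c2, f β.c3⟩

/-- the image of a row -/
def rm {R S : Type} [CommRing R] [CommRing S] (f : R →+* S) (π : Row R) : Row S :=
  ⟨f π.p1, f π.p2, f π.q1, f π.q2⟩

theorem bm_D {R S : Type} [CommRing R] [CommRing S] (f : R →+* S) (β : Blk R) :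
    (bm f β).D1 = f β.D1 ∧ (bm f β).D2 = f β.D2 ∧ (bm f β).D3 = f β.D3 ∧ (bm f β).E = f β.E := by
  refine ⟨?_, ?_, ?_, ?_⟩ <;>
  simp only [bm, Blk.E, Blk.D1, Blk.D2, Blk.D3, map_sub, map_mul, map_pow, map_add, map_ofNat]

theorem bm_eb {R S : Type} [CommRing R] [CommRing S] (f : R →+* S) (β : Blk R) (π : Row R) :
    (bm f β).eb1 (rm f π) = f (β.eb1 π) ∧ (bm f β).eb2 (rm f π) = f (β.eb2 π) := by
  refine ⟨?_, ?_⟩ <;>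
  simp only [bm, rm, Blk.eb1, Blk.eb2, Blk.D1, map_sub, map_mul, map_pow, map_add, map_ofNat]

theorem bm_sol {R S : Type} [CommRing R] [CommRing S] (f : R →+* S) {β : Blk R} {π : Row R}
    {r r' u v : R} (h : Sol β π r r' u v) : Sol (bm f β) (rm f π) (f r) (f r') (f u) (f v) := by
  constructor
  · rw [← h.e1]
    simp only [bm, rm, Blk.Ab, Blk.D1, map_sub, map_mul, map_pow, map_add, map_ofNat]
  · have e := congrArg f h.e2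
    simp only [bm, rm, Blk.Ab, Blk.Ac, Blk.D1, Blk.D2, map_sub, map_mul, map_pow, map_add, map_ofNat] at e ⊢
    exact e
  · have e := congrArg f h.e3
    simp only [bm, rm, Blk.Ab, Blk.Ac, Blk.D1, Blk.D2, Blk.D3, map_sub, map_mul, map_pow, map_add, map_ofNat] at e ⊢
    exact e
  · rw [← h.e4]
    simp only [bm, rm, Blk.Ac, Blk.D3, map_sub, map_mul, map_pow, map_add, map_ofNat]

end H77.CO
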