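import Mathlib

/-!
# W1, completions lemma: splitting of binary quadratic forms over the complex numbers

PROOF of `split`. If `C = 0`: `(a1, b1, a2, b2) = (A, B, 1, 0)`. Otherwise let `τ` be a root of `C τ ^ 2 + B τ + A` (`IsAlgClosed.exists_root` or the square
root of the discriminant: `IsAlgClosed.exists_pow_nat_eq`, `exists_quadratic_eq_zero`). If `‖τ‖ ≤ 1`: `(a1, b1, a2, b2) = (B + C τ, C, -τ, 1)`. If `‖τ‖ > 1`:
`(a1, b1, a2, b2) = (A, B + A / τ, 1, -1 / τ)`.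

PROOF of `low`. `m` = the maximum. If `m ≤ 4 ‖x1‖` take `(1, 0)`; if `m ≤ 4 ‖x3‖` take `(0, 1)`; otherwise `m = ‖x2‖`, take `(1, 1)`: the sum has norm at
least `m ^ 3 - 3 (m / 4) ^ 2 m - 2 (m / 4) ^ 3 ≥ m ^ 3 / 2`.

PROOF of `dya`. If `p ≤ w` and `q ≤ w`: `(false, 0)`, the box `(w, 2 w)`. If `p > w`: `j` least with `p ≤ 2 ^ j w`, so `1 ≤ j ≤ L`, `2 ^ (j - 1) w < p` and
`q ≤ w ^ 2 / p < 2 w / 2 ^ j`: `(false, j)`. If `q > w`: `(true, j)` in the same way.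
-/

set_option autoImplicit false

namespace H77.CO

/-- a binary quadratic form over the complex numbers is a product of two linear forms with bounded
coefficients -/
theorem split (A B C : ℂ) : ∃ a1 b1 a2 b2 : ℂ, A = a1 * a2 ∧ B = a1 * b2 + b1 * a2 ∧
    C = b1 * b2 ∧ ‖a2‖ ≤ 1 ∧ ‖b2‖ ≤ 1 ∧ ‖a1‖ ≤ ‖A‖ + ‖B‖ + ‖C‖ ∧ ‖b1‖ ≤ ‖A‖ + ‖B‖ + ‖C‖ := by
  by_cases hC : C = 0
  · refine ⟨A, B, 1, 0, by ring, by ring, by rw [hC]; ring, by simp, by simp, ?_, ?_⟩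
    · have h1 := norm_nonneg B
      have h2 := norm_nonneg C
      linarith
    · have h1 := norm_nonneg A
      have h2 := norm_nonneg C
      linarith
  · obtain ⟨τ, hτ⟩ : ∃ τ : ℂ, C * τ ^ 2 + B * τ + A = 0 := by
      obtain ⟨s, hs⟩ := IsAlgClosed.exists_pow_nat_eq (B ^ 2 - 4 * C * A) (n := 2) (by norm_num)
      refine ⟨(-B + s) / (2 * C), ?_⟩
      field_simp
      linear_combination hs
    rcases le_or_gt ‖τ‖ 1 with h1 | h1
    · refine ⟨B + C * τ, C, -τ, 1, by linear_combination hτ, by ring, by ring, by rw [norm_neg]; exact h1,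
        by simp, ?_, ?_⟩
      · have h2 : ‖B + C * τ‖ ≤ ‖B‖ + ‖C‖ * ‖τ‖ := by
          rw [← norm_mul]; exact norm_add_le _ _
        have h3 : ‖C‖ * ‖τ‖ ≤ ‖C‖ * 1 := mul_le_mul_of_nonneg_left h1 (norm_nonneg _)
        have h4 := norm_nonneg A
        linarith
      · have h2 := norm_nonneg A
        have h3 := norm_nonneg B
        linarith
    · have hτ0 : τ ≠ 0 := by
        intro h
        rw [h, norm_zero] at h1
        linarith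
      refine ⟨A, B + A / τ, 1, -1 / τ, by ring, by ring, ?_, by simp, ?_, ?_, ?_⟩
      · field_simp
        linear_combination hτ
      · rw [norm_div, norm_neg, norm_one, div_le_one (by linarith)]
        exact h1.le
      · have h2 := norm_nonneg B
        have h3 := norm_nonneg C
        linarith
      · have h2 : ‖B + A / τ‖ ≤ ‖B‖ + ‖A‖ / ‖τ‖ := by
          rw [← norm_div]; exact norm_add_le _ _
        have h3 : ‖A‖ / ‖τ‖ ≤ ‖A‖ := div_le_self (norm_nonneg _) h1.le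
        have h4 := norm_nonneg C
        linarith

/-- one of three combinations is large -/
theorem low (x1 x2 x3 : ℂ) : ∃ σ1 σ2 : ℂ, (σ1 = 0 ∨ σ1 = 1) ∧ (σ2 = 0 ∨ σ2 = 1) ∧
    max ‖x1‖ (max ‖x2‖ ‖x3‖) ^ 3 ≤
      64 * ‖σ1 ^ 2 * x1 ^ 3 + σ1 * σ2 * (x2 ^ 3 - 3 * x1 * x2 * x3) + σ2 ^ 2 * x3 ^ 3‖ := by
  set m := max ‖x1‖ (max ‖x2‖ ‖x3‖) with hm
  have hm0 : 0 ≤ m := le_trans (norm_nonneg _) (le_max_left _ _)
  rcases le_or_gt m (4 * ‖x1‖) with h1 | h1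
  · refine ⟨1, 0, Or.inr rfl, Or.inl rfl, ?_⟩
    have e : (1 : ℂ) ^ 2 * x1 ^ 3 + 1 * 0 * (x2 ^ 3 - 3 * x1 * x2 * x3) + 0 ^ 2 * x3 ^ 3 = x1 ^ 3 := by ring
    rw [e, norm_pow]
    calc m ^ 3 ≤ (4 * ‖x1‖) ^ 3 := pow_le_pow_left₀ hm0 h1 3
      _ = 64 * ‖x1‖ ^ 3 := by ring
  rcases le_or_gt m (4 * ‖x3‖) with h3 | h3
  · refine ⟨0, 1, Or.inl rfl, Or.inr rfl, ?_⟩
    have e : (0 : ℂ) ^ 2 * x1 ^ 3 + 0 * 1 * (x2 ^ 3 - 3 * x1 * x2 * x3) + 1 ^ 2 * x3 ^ 3 = x3 ^ 3 := by ring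
    rw [e, norm_pow]
    calc m ^ 3 ≤ (4 * ‖x3‖) ^ 3 := pow_le_pow_left₀ hm0 h3 3
      _ = 64 * ‖x3‖ ^ 3 := by ring
  refine ⟨1, 1, Or.inr rfl, Or.inr rfl, ?_⟩
  have hx1 : ‖x1‖ ≤ m / 4 := by linarith
  have hx3 : ‖x3‖ ≤ m / 4 := by linarith
  have hx2 : m = ‖x2‖ := by
    have ha : ‖x2‖ ≤ m := le_trans (le_max_left _ _) (le_max_right _ _)
    by_contra hne
    have hlt : ‖x2‖ < m := lt_of_le_of_ne ha (fun h => hne h.symm)
    have hmm : m < m := by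
      conv_lhs => rw [hm]
      refine max_lt ?_ (max_lt hlt ?_)
      · by_contra hc
        rw [not_lt] at hc
        have : ‖x1‖ < 0 ∨ 0 ≤ ‖x1‖ := lt_or_ge _ _
        rcases this with h | h
        · linarith [norm_nonneg x1]
        · linarith
      · by_contra hc
        rw [not_lt] at hc
        linarith [norm_nonneg x3]
    exact lt_irrefl _ hmm
  have e : (1 : ℂ) ^ 2 * x1 ^ 3 + 1 * 1 * (x2 ^ 3 - 3 * x1 * x2 * x3) + 1 ^ 2 * x3 ^ 3 =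
      x2 ^ 3 - (3 * x1 * x2 * x3 - x1 ^ 3 - x3 ^ 3) := by ring
  rw [e]
  have hb : ‖3 * x1 * x2 * x3 - x1 ^ 3 - x3 ^ 3‖ ≤ 14 / 64 * m ^ 3 := by
    have t1 : ‖3 * x1 * x2 * x3 - x1 ^ 3 - x3 ^ 3‖ ≤ ‖3 * x1 * x2 * x3‖ + ‖x1 ^ 3‖ + ‖x3 ^ 3‖ :=
      le_trans (norm_sub_le _ _) (add_le_add_left (norm_sub_le _ _) _)
    have t2 : ‖3 * x1 * x2 * x3‖ ≤ 3 * (m / 4) * m * (m / 4) := by
      rw [norm_mul, norm_mul, norm_mul]
      have h3n : ‖(3 : ℂ)‖ = 3 := by simp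
      rw [h3n]
      have := hx2.symm.le
      gcongr
    have t3 : ‖x1 ^ 3‖ ≤ (m / 4) ^ 3 := by
      rw [norm_pow]; exact pow_le_pow_left₀ (norm_nonneg _) hx1 3
    have t4 : ‖x3 ^ 3‖ ≤ (m / 4) ^ 3 := by
      rw [norm_pow]; exact pow_le_pow_left₀ (norm_nonneg _) hx3 3
    calc _ ≤ 3 * (m / 4) * m * (m / 4) + (m / 4) ^ 3 + (m / 4) ^ 3 := by linarith
      _ = 14 / 64 * m ^ 3 := by ring
  have hc : ‖x2 ^ 3‖ - ‖3 * x1 * x2 * x3 - x1 ^ 3 - x3 ^ 3‖ ≤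
      ‖x2 ^ 3 - (3 * x1 * x2 * x3 - x1 ^ 3 - x3 ^ 3)‖ := norm_sub_norm_le _ _
  have hd : ‖x2 ^ 3‖ = m ^ 3 := by rw [norm_pow, ← hx2]
  rw [hd] at hc
  have hm3 : 0 ≤ m ^ 3 := pow_nonneg hm0 3
  linarith

/-- the first side of the box of index `i` -/
noncomputable def bA (w : ℝ) (i : Bool × ℕ) : ℝ := if i.1 then 2 * w / 2 ^ i.2 else 2 ^ i.2 * w

/-- the second side of the box of index `i` -/
noncomputable def bB (w : ℝ) (i : Bool × ℕ) : ℝ := if i.1 then 2 ^ i.2 * w else 2 * w / 2 ^ i.2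

theorem bAB {w : ℝ} (hw : 0 < w) (i : Bool × ℕ) : 0 < bA w i ∧ 0 < bB w i ∧
    bA w i * bB w i = 2 * w ^ 2 := by
  have h2 : (0 : ℝ) < 2 ^ i.2 := by positivity
  unfold bA bB
  rcases i with ⟨b, j⟩
  cases b
  · simp only [Bool.false_eq_true, if_false]
    refine ⟨by positivity, by positivity, ?_⟩
    field_simp
  · simp only [if_true]
    refine ⟨by positivity, by positivity, ?_⟩
    field_simp

/-- the boxes cover -/
theorem dya {w : ℝ} (hw : 0 < w) {L : ℕ} {p q : ℝ} (hp : 0 ≤ p) (hq : 0 ≤ q) (hpq : p * q ≤ w ^ 2)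
    (hp' : p ≤ 2 ^ L * w) (hq' : q ≤ 2 ^ L * w) : ∃ i : Bool × ℕ, i.2 ≤ L ∧ p ≤ bA w i ∧
      q ≤ bB w i := by
  have key : ∀ p q : ℝ, 0 ≤ q → p * q ≤ w ^ 2 → p ≤ 2 ^ L * w → w < p →
      ∃ j : ℕ, j ≤ L ∧ p ≤ 2 ^ j * w ∧ q ≤ 2 * w / 2 ^ j := by
    intro p q hq hpq hp' hwp
    have hex : ∃ j : ℕ, p ≤ 2 ^ j * w := ⟨L, hp'⟩
    classical
    let j := Nat.find hex
    have hj : p ≤ 2 ^ j * w := Nat.find_spec hex
    have hjL : j ≤ L := Nat.find_min' hex hp'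
    have hj1 : j ≠ 0 := by
      intro h0
      rw [h0, pow_zero, one_mul] at hj
      linarith
    obtain ⟨k, hk⟩ := Nat.exists_eq_succ_of_ne_zero hj1
    have hkn : ¬ p ≤ 2 ^ k * w := Nat.find_min hex (show k < j by rw [hk]; exact Nat.lt_succ_self k)
    rw [not_le] at hkn
    refine ⟨j, hjL, hj, ?_⟩
    have h2k : (0 : ℝ) < 2 ^ k := by positivity
    have e : (2 : ℝ) ^ j = 2 * 2 ^ k := by rw [hk, pow_succ]; ring
    rw [e, le_div_iff₀ (by positivity)]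
    have h1 : 2 ^ k * w * q ≤ w * w := by
      calc 2 ^ k * w * q ≤ p * q := mul_le_mul_of_nonneg_right hkn.le hq
        _ ≤ w ^ 2 := hpq
        _ = w * w := by ring
    have h3 : w * (2 ^ k * q) ≤ w * w := by
      calc w * (2 ^ k * q) = 2 ^ k * w * q := by ring
        _ ≤ w * w := h1
    have h4 : 2 ^ k * q ≤ w := le_of_mul_le_mul_left h3 hw
    linarith
  unfold bA bB
  rcases le_or_gt p w with h1 | h1
  · rcases le_or_gt q w with h2 | h2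
    · refine ⟨(false, 0), Nat.zero_le _, ?_, ?_⟩
      · simpa using h1
      · simp only [Bool.false_eq_true, if_false, pow_zero, div_one]
        linarith
    · obtain ⟨j, h3, h4, h5⟩ := key q p hp (by rw [mul_comm]; exact hpq) hq' h2
      exact ⟨(true, j), h3, by simpa using h5, by simpa using h4⟩
  · obtain ⟨j, h3, h4, h5⟩ := key p q hq hpq hp' h1
    exact ⟨(false, j), h3, by simpa using h4, by simpa using h5⟩

end H77.CO
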