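import Pool.Agent.H77.CO.Alg
import Pool.Agent.H77.CO.Spl

/-!
# W1, completions lemma: one embedding

PROOF. `x1 = D1 / s ^ 2`, `x2 = D2 / (s t)`, `x3 = D3 / t ^ 2` (complex numbers) in `low` (Spl) gives `σ1, σ2`; with `s1 = σ1 / s ^ 3`, `s2 = σ2 / t ^ 3` one has
`Δ := s1 ^ 2 D1 ^ 3 + s1 s2 (D2 ^ 3 - 3 D1 D2 D3) + s2 ^ 2 D3 ^ 3 = σ1 ^ 2 x1 ^ 3 + σ1 σ2 (x2 ^ 3 - 3 x1 x2 x3) + σ2 ^ 2 x3 ^ 3`. `split` for the coefficients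
`A = s1 b3 + s2 cA / D1 ^ 2`, `B = s1 (-2 b2) + s2 cB / D1 ^ 2`, `C = s1 b1 + s2 cC / D1 ^ 2` (`Ab x y x y = b3 x ^ 2 - 2 b2 x y + b1 y ^ 2`; `yc_co`). `(a1 b2 - b1 a2) ^ 2 = B ^ 2 - 4 A C = -4 Δ / D1 ^ 2` (`disc`), so
`‖a1 b2 - b1 a2‖ ^ 2 ‖D1‖ ^ 2 = 4 ‖Δ‖`. The bounds: `‖A‖ + ‖B‖ + ‖C‖ ≤ 4 H / s ^ 3 + (‖cA‖ + ‖cB‖ + ‖cC‖) / (t ^ 3 ‖D1‖ ^ 2)`, and `‖cA‖ ≤ 16 H ^ 5`, `‖cB‖ ≤ 32 H ^ 5`, `‖cC‖ ≤ 16 H ^ 5` (all six minors `b1 c3 - b2 c2`, .. have norm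
at most `2 H ^ 2`).
-/

set_option autoImplicit false

namespace H77.CO

open H88.A4

private theorem minor_le {a b c d : ℂ} {H : ℝ} (ha : ‖a‖ ≤ H) (hb : ‖b‖ ≤ H) (hc : ‖c‖ ≤ H)
    (hd : ‖d‖ ≤ H) : ‖a * b - c * d‖ ≤ 2 * H ^ 2 := by
  have h0 : 0 ≤ H := (norm_nonneg a).trans ha
  calc ‖a * b - c * d‖ ≤ ‖a * b‖ + ‖c * d‖ := norm_sub_le _ _
    _ ≤ H * H + H * H := by
        rw [norm_mul, norm_mul]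
        exact add_le_add (mul_le_mul ha hb (norm_nonneg _) h0) (mul_le_mul hc hd (norm_nonneg _) h0)
    _ = 2 * H ^ 2 := by ring

private theorem tri_le {c3 c2 c1 m n p q r t : ℂ} {H G : ℝ} (h3 : ‖c3‖ ≤ H) (h2 : ‖c2‖ ≤ H)
    (h1 : ‖c1‖ ≤ H) (hm : ‖m‖ ≤ G) (hn : ‖n‖ ≤ G) (hp : ‖p‖ ≤ G) (hq : ‖q‖ ≤ G) (hr : ‖r‖ ≤ G)
    (ht : ‖t‖ ≤ G) : ‖c3 * (m * n) - 2 * c2 * (p * q) + c1 * (r * t)‖ ≤ 4 * (H * G ^ 2) := by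
  have h0 : 0 ≤ H := (norm_nonneg c3).trans h3
  have g0 : 0 ≤ G := (norm_nonneg m).trans hm
  have e : ∀ {c a b : ℂ}, ‖c‖ ≤ H → ‖a‖ ≤ G → ‖b‖ ≤ G → ‖c * (a * b)‖ ≤ H * G ^ 2 := by
    intro c a b hc ha hb
    rw [norm_mul, norm_mul, pow_two]
    exact mul_le_mul hc (mul_le_mul ha hb (norm_nonneg _) g0)
      (mul_nonneg (norm_nonneg _) (norm_nonneg _)) h0
  have e2 : ‖2 * c2 * (p * q)‖ ≤ 2 * (H * G ^ 2) := by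
    rw [mul_assoc, norm_mul]
    have h2' : ‖(2 : ℂ)‖ = 2 := by norm_num
    rw [h2']
    exact mul_le_mul_of_nonneg_left (e h2 hp hq) (by norm_num)
  calc ‖c3 * (m * n) - 2 * c2 * (p * q) + c1 * (r * t)‖ ≤
      ‖c3 * (m * n) - 2 * c2 * (p * q)‖ + ‖c1 * (r * t)‖ := norm_add_le _ _
    _ ≤ (‖c3 * (m * n)‖ + ‖2 * c2 * (p * q)‖) + ‖c1 * (r * t)‖ :=
        add_le_add (norm_sub_le _ _) le_rfl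
    _ ≤ (H * G ^ 2 + 2 * (H * G ^ 2)) + H * G ^ 2 :=
        add_le_add (add_le_add (e h3 hm hn) e2) (e h1 hr ht)
    _ = 4 * (H * G ^ 2) := by ring

private theorem coef_le {A : ℂ} {s1 s2 b c D : ℂ} {u v B G d : ℝ} (hA : A = s1 * b + s2 * (c / D))
    (h1 : ‖s1‖ ≤ u) (h2 : ‖s2‖ ≤ v) (hb : ‖b‖ ≤ B) (hc : ‖c‖ ≤ G) (hd : ‖D‖ = d) (hd0 : 0 < d) :
    ‖A‖ ≤ u * B + v * (G / d) := by
  have u0 : 0 ≤ u := (norm_nonneg _).trans h1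
  have v0 : 0 ≤ v := (norm_nonneg _).trans h2
  rw [hA]
  calc ‖s1 * b + s2 * (c / D)‖ ≤ ‖s1 * b‖ + ‖s2 * (c / D)‖ := norm_add_le _ _
    _ = ‖s1‖ * ‖b‖ + ‖s2‖ * (‖c‖ / d) := by rw [norm_mul, norm_mul, norm_div, hd]
    _ ≤ u * B + v * (G / d) := add_le_add (mul_le_mul h1 hb (norm_nonneg _) u0)
        (mul_le_mul h2 (div_le_div_of_nonneg_right hc hd0.le) (by positivity) v0)

theorem place (β : Blk ℂ) (hD : β.D1 ≠ 0) {s t : ℝ} (hs : 0 < s) (ht : 0 < t) {H : ℝ}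
    (hβ : β.All (fun z => ‖z‖ ≤ H)) : ∃ a1 b1 a2 b2 σ1 σ2 : ℂ,
      (σ1 = 0 ∨ σ1 = 1) ∧ (σ2 = 0 ∨ σ2 = 1) ∧
      (∀ x y : ℂ, (a1 * x + b1 * y) * (a2 * x + b2 * y) = σ1 / (s : ℂ) ^ 3 * β.Ab x y x y +
        σ2 / (t : ℂ) ^ 3 * (β.Ac (M1 β x y) (M2 β x y) (M1 β x y) (M2 β x y) / β.D1 ^ 2)) ∧
      max (‖β.D1‖ / s ^ 2) (max (‖β.D2‖ / (s * t)) (‖β.D3‖ / t ^ 2)) ^ 3 ≤
        16 * ‖β.D1‖ ^ 2 * ‖a1 * b2 - b1 * a2‖ ^ 2 ∧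
      ‖a2‖ ≤ 1 ∧ ‖b2‖ ≤ 1 ∧ ‖a1‖ ≤ 4 * H / s ^ 3 + 64 * H ^ 5 / (t ^ 3 * ‖β.D1‖ ^ 2) ∧
      ‖b1‖ ≤ 4 * H / s ^ 3 + 64 * H ^ 5 / (t ^ 3 * ‖β.D1‖ ^ 2) := by
  have hsC : (s : ℂ) ≠ 0 := Complex.ofReal_ne_zero.2 hs.ne'
  have htC : (t : ℂ) ≠ 0 := Complex.ofReal_ne_zero.2 ht.ne'
  have hns : ‖(s : ℂ)‖ = s := by rw [Complex.norm_real, Real.norm_eq_abs, abs_of_pos hs]
  have hnt : ‖(t : ℂ)‖ = t := by rw [Complex.norm_real, Real.norm_eq_abs, abs_of_pos ht]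
  obtain ⟨σ1, σ2, h1, h2, hlow⟩ := low (β.D1 / (s : ℂ) ^ 2) (β.D2 / ((s : ℂ) * t)) (β.D3 / (t : ℂ) ^ 2)
  obtain ⟨s1, hs1⟩ : ∃ s1 : ℂ, s1 = σ1 / (s : ℂ) ^ 3 := ⟨_, rfl⟩
  obtain ⟨s2, hs2⟩ : ∃ s2 : ℂ, s2 = σ2 / (t : ℂ) ^ 3 := ⟨_, rfl⟩
  obtain ⟨a1, b1, a2, b2, hA, hB, hC, ha2, hb2, ha1, hb1⟩ := split
    (s1 * β.b3 + s2 * (cA β / β.D1 ^ 2)) (s1 * (-(2 * β.b2)) + s2 * (cB β / β.D1 ^ 2))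
    (s1 * β.b1 + s2 * (cC β / β.D1 ^ 2))
  obtain ⟨g1, g2, g3, g4, g5, g6⟩ := hβ
  have g1 : ‖β.b1‖ ≤ H := g1
  have g2 : ‖β.b2‖ ≤ H := g2
  have g3 : ‖β.b3‖ ≤ H := g3
  have g4 : ‖β.c1‖ ≤ H := g4
  have g5 : ‖β.c2‖ ≤ H := g5
  have g6 : ‖β.c3‖ ≤ H := g6
  have hH : 0 ≤ H := (norm_nonneg _).trans g1
  have hs1n : ‖s1‖ ≤ 1 / s ^ 3 := by
    rw [hs1, norm_div, norm_pow, hns]
    refine div_le_div_of_nonneg_right ?_ (by positivity)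
    rcases h1 with h | h <;> rw [h] <;> norm_num
  have hs2n : ‖s2‖ ≤ 1 / t ^ 3 := by
    rw [hs2, norm_div, norm_pow, hnt]
    refine div_le_div_of_nonneg_right ?_ (by positivity)
    rcases h2 with h | h <;> rw [h] <;> norm_num
  have hDn : 0 < ‖β.D1‖ := norm_pos_iff.2 hD
  have hDD : ‖β.D1 ^ 2‖ = ‖β.D1‖ ^ 2 := norm_pow _ _
  have n1 : ‖β.b1 * β.c3 - β.b2 * β.c2‖ ≤ 2 * H ^ 2 := minor_le g1 g6 g2 g5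
  have n2 : ‖β.b2 * β.c3 - β.b3 * β.c2‖ ≤ 2 * H ^ 2 := minor_le g2 g6 g3 g5
  have n3 : ‖β.b2 * β.c1 - β.b1 * β.c2‖ ≤ 2 * H ^ 2 := minor_le g2 g4 g1 g5
  have n4 : ‖β.b3 * β.c1 - β.b2 * β.c2‖ ≤ 2 * H ^ 2 := minor_le g3 g4 g2 g5
  have kA : ‖cA β‖ ≤ 16 * H ^ 5 := by
    have h := tri_le g6 g5 g4 n1 n1 n1 n2 n2 n2
    have e : cA β = β.c3 * ((β.b1 * β.c3 - β.b2 * β.c2) * (β.b1 * β.c3 - β.b2 * β.c2)) -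
        2 * β.c2 * ((β.b1 * β.c3 - β.b2 * β.c2) * (β.b2 * β.c3 - β.b3 * β.c2)) +
        β.c1 * ((β.b2 * β.c3 - β.b3 * β.c2) * (β.b2 * β.c3 - β.b3 * β.c2)) := by
      unfold cA
      ring
    rw [e]
    refine h.trans (le_of_eq ?_)
    ring
  have kC : ‖cC β‖ ≤ 16 * H ^ 5 := by
    have h := tri_le g6 g5 g4 n3 n3 n3 n4 n4 n4
    have e : cC β = β.c3 * ((β.b2 * β.c1 - β.b1 * β.c2) * (β.b2 * β.c1 - β.b1 * β.c2)) -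
        2 * β.c2 * ((β.b2 * β.c1 - β.b1 * β.c2) * (β.b3 * β.c1 - β.b2 * β.c2)) +
        β.c1 * ((β.b3 * β.c1 - β.b2 * β.c2) * (β.b3 * β.c1 - β.b2 * β.c2)) := by
      unfold cC
      ring
    rw [e]
    refine h.trans (le_of_eq ?_)
    ring
  have kB : ‖cB β‖ ≤ 32 * H ^ 5 := by
    have h := tri_le g6 g5 g4 n1 n3 n1 n4 n2 n4
    have h' := tri_le g6 g5 g4 n1 n3 n3 n2 n2 n4
    have e : cB β = (β.c3 * ((β.b1 * β.c3 - β.b2 * β.c2) * (β.b2 * β.c1 - β.b1 * β.c2)) -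
        2 * β.c2 * ((β.b1 * β.c3 - β.b2 * β.c2) * (β.b3 * β.c1 - β.b2 * β.c2)) +
        β.c1 * ((β.b2 * β.c3 - β.b3 * β.c2) * (β.b3 * β.c1 - β.b2 * β.c2))) +
        (β.c3 * ((β.b1 * β.c3 - β.b2 * β.c2) * (β.b2 * β.c1 - β.b1 * β.c2)) -
        2 * β.c2 * ((β.b2 * β.c1 - β.b1 * β.c2) * (β.b2 * β.c3 - β.b3 * β.c2)) +
        β.c1 * ((β.b2 * β.c3 - β.b3 * β.c2) * (β.b3 * β.c1 - β.b2 * β.c2))) := by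
      unfold cB
      ring
    rw [e]
    refine (norm_add_le _ _).trans ((add_le_add h h').trans (le_of_eq ?_))
    ring
  have hb2' : ‖-(2 * β.b2)‖ ≤ 2 * H := by
    rw [norm_neg, norm_mul]
    have h2' : ‖(2 : ℂ)‖ = 2 := by norm_num
    rw [h2']
    exact mul_le_mul_of_nonneg_left g2 (by norm_num)
  have hd0 : 0 < ‖β.D1‖ ^ 2 := by positivity
  have lA := coef_le (A := s1 * β.b3 + s2 * (cA β / β.D1 ^ 2)) rfl hs1n hs2n g3 kA hDD hd0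
  have lB := coef_le (A := s1 * (-(2 * β.b2)) + s2 * (cB β / β.D1 ^ 2)) rfl hs1n hs2n hb2' kB hDD hd0
  have lC := coef_le (A := s1 * β.b1 + s2 * (cC β / β.D1 ^ 2)) rfl hs1n hs2n g1 kC hDD hd0
  have etot : (1 / s ^ 3 * H + 1 / t ^ 3 * (16 * H ^ 5 / ‖β.D1‖ ^ 2)) +
      (1 / s ^ 3 * (2 * H) + 1 / t ^ 3 * (32 * H ^ 5 / ‖β.D1‖ ^ 2)) +
      (1 / s ^ 3 * H + 1 / t ^ 3 * (16 * H ^ 5 / ‖β.D1‖ ^ 2)) =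
      4 * H / s ^ 3 + 64 * H ^ 5 / (t ^ 3 * ‖β.D1‖ ^ 2) := by
    have hs3 : s ^ 3 ≠ 0 := by positivity
    have ht3 : t ^ 3 ≠ 0 := by positivity
    have hd3 : ‖β.D1‖ ^ 2 ≠ 0 := hd0.ne'
    field_simp
    ring
  have ltot := (add_le_add (add_le_add lA lB) lC).trans (le_of_eq etot)
  refine ⟨a1, b1, a2, b2, σ1, σ2, h1, h2, ?_, ?_, ha2, hb2, ha1.trans ltot, hb1.trans ltot⟩
  · intro x y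
    rw [yc_co, ← hs1, ← hs2]
    have e : (a1 * x + b1 * y) * (a2 * x + b2 * y) =
        (a1 * a2) * x ^ 2 + (a1 * b2 + b1 * a2) * (x * y) + (b1 * b2) * y ^ 2 := by ring
    rw [e, ← hA, ← hB, ← hC]
    unfold Blk.Ab
    ring
  · have hdisc := disc β hD s1 s2
    have e1 : (a1 * b2 - b1 * a2) ^ 2 = (s1 * (-(2 * β.b2)) + s2 * (cB β / β.D1 ^ 2)) ^ 2 -
        4 * (s1 * β.b3 + s2 * (cA β / β.D1 ^ 2)) * (s1 * β.b1 + s2 * (cC β / β.D1 ^ 2)) := by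
      rw [hA, hB, hC]
      ring
    rw [hdisc] at e1
    have e2 : σ1 ^ 2 * (β.D1 / (s : ℂ) ^ 2) ^ 3 + σ1 * σ2 * ((β.D2 / ((s : ℂ) * t)) ^ 3 -
        3 * (β.D1 / (s : ℂ) ^ 2) * (β.D2 / ((s : ℂ) * t)) * (β.D3 / (t : ℂ) ^ 2)) +
        σ2 ^ 2 * (β.D3 / (t : ℂ) ^ 2) ^ 3 =
        s1 ^ 2 * β.D1 ^ 3 + s1 * s2 * (β.D2 ^ 3 - 3 * β.D1 * β.D2 * β.D3) + s2 ^ 2 * β.D3 ^ 3 := by
      rw [hs1, hs2]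
      field_simp
    rw [e2] at hlow
    have e3 : ‖β.D1‖ ^ 2 * ‖a1 * b2 - b1 * a2‖ ^ 2 =
        4 * ‖s1 ^ 2 * β.D1 ^ 3 + s1 * s2 * (β.D2 ^ 3 - 3 * β.D1 * β.D2 * β.D3) + s2 ^ 2 * β.D3 ^ 3‖ := by
      rw [← norm_pow, ← norm_pow, e1, norm_div, norm_neg, norm_mul, norm_pow]
      have h4 : ‖(4 : ℂ)‖ = 4 := by norm_num
      rw [h4]
      field_simp
    have e4 : 16 * ‖β.D1‖ ^ 2 * ‖a1 * b2 - b1 * a2‖ ^ 2 = 64 *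
        ‖s1 ^ 2 * β.D1 ^ 3 + s1 * s2 * (β.D2 ^ 3 - 3 * β.D1 * β.D2 * β.D3) + s2 ^ 2 * β.D3 ^ 3‖ := by
      rw [mul_assoc, e3]
      ring
    rw [e4]
    rw [norm_div, norm_div, norm_div, norm_mul, norm_pow, norm_pow, hns, hnt] at hlow
    exact hlow

end H77.CO
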