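import Pool.Agent.H77.CO.Two
import Pool.Agent.H77.CO.Plc
import Pool.Agent.H77.CO.Lin

/-!
# W1, completions lemma: one class
-/

open scoped NumberField

set_option autoImplicit false

noncomputable section

namespace H77.CO

open H88.A4

variable {K : Type} [Field K] [NumberField K]

theorem cm (x y : 𝓞 K) : ((x * y : 𝓞 K) : K) = (x : K) * (y : K) := rfl
theorem ca (x y : 𝓞 K) : ((x + y : 𝓞 K) : K) = (x : K) + (y : K) := rfl
theorem cs (x y : 𝓞 K) : ((x - y : 𝓞 K) : K) = (x : K) - (y : K) := rfl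
theorem cn (x : 𝓞 K) : ((-x : 𝓞 K) : K) = -(x : K) := rfl
theorem c0 : ((0 : 𝓞 K) : K) = 0 := rfl

/-- the vector `η_b` in the plane `K × K` -/
def et (β : Blk (𝓞 K)) (π : Row (𝓞 K)) : K × K := ((β.eb1 π : K), (β.eb2 π : K))

/-- the group of the determinants -/
def GG (β : Blk (𝓞 K)) (I : Ideal (𝓞 K)) (m : ℕ) : AddSubgroup K where
  carrier := {g | ∃ n : 𝓞 K, g = ((β.D1 * n : 𝓞 K) : K) ∧ ∀ x ∈ I, β.E ∣ (m : 𝓞 K) * x * n}
  add_mem' := by
    rintro _ _ ⟨n, rfl, hn⟩ ⟨n', rfl, hn'⟩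
    refine ⟨n + n', ?_, fun x hx => ?_⟩
    · rw [mul_add, ca]
    · rw [mul_add]
      exact dvd_add (hn x hx) (hn' x hx)
  zero_mem' := ⟨0, by rw [mul_zero, c0], fun x _ => by rw [mul_zero]; exact dvd_zero _⟩
  neg_mem' := by
    rintro _ ⟨n, rfl, hn⟩
    refine ⟨-n, ?_, fun x hx => ?_⟩
    · rw [mul_neg, cn]
    · rw [mul_neg]
      exact (hn x hx).neg_right

theorem et_inj {β : Blk (𝓞 K)} (hE : β.E ≠ 0) (hD : β.D1 ≠ 0) {π π' : Row (𝓞 K)}
    {r r' u v ρ ρ' u' v' : 𝓞 K} (h : Sol β π r r' u v) (h' : Sol β π' ρ ρ' u' v')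
    (he : et β π = et β π') : u = u' ∧ v = v' := by
  have h1 : β.eb1 π = β.eb1 π' := NumberField.RingOfIntegers.coe_injective (congrArg Prod.fst he)
  have h2 : β.eb2 π = β.eb2 π' := NumberField.RingOfIntegers.coe_injective (congrArg Prod.snd he)
  have h3 := eu h
  have h4 := eu h'
  have h5 := ev' h
  have h6 := ev' h'
  rw [h1, h2, ← h4] at h3
  rw [h1, h2, ← h6] at h5
  exact ⟨mul_left_cancel₀ hE h3, mul_left_cancel₀ hE (mul_left_cancel₀ (pow_ne_zero 2 hD) h5)⟩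

theorem et_ne {β : Blk (𝓞 K)} (hE : β.E ≠ 0) {π : Row (𝓞 K)} {r r' u v : 𝓞 K}
    (h : Sol β π r r' u v) (hu : u ≠ 0) : et β π ≠ 0 := by
  intro he
  have h1 : β.eb1 π = 0 := NumberField.RingOfIntegers.coe_injective (congrArg Prod.fst he)
  have h2 : β.eb2 π = 0 := NumberField.RingOfIntegers.coe_injective (congrArg Prod.snd he)
  have h3 := eu h
  rw [h1, h2] at h3
  have h4 : β.E * u = 0 := by
    rw [h3]
    unfold Blk.Ab
    ring
  exact mul_ne_zero hE hu h4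

/-- a vector with determinant zero is a multiple -/
theorem mul_of_det {x y : K × K} (hx : x ≠ 0) (h : x.1 * y.2 - x.2 * y.1 = 0) :
    ∃ t : K, y = t • x := by
  by_cases h1 : x.1 = 0
  · have h2 : x.2 ≠ 0 := fun h2 => hx (Prod.ext h1 h2)
    refine ⟨y.2 / x.2, Prod.ext ?_ ?_⟩
    · rw [h1, zero_mul, zero_sub, neg_eq_zero, mul_eq_zero] at h
      have h3 : y.1 = 0 := h.resolve_left h2
      simp [h1, h3]
    · simp [h2]
  · refine ⟨y.1 / x.1, Prod.ext ?_ ?_⟩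
    · simp [h1]
    · show y.2 = y.1 / x.1 * x.2
      field_simp
      linear_combination h

/-- proportional vectors give proportional pairs -/
theorem et_prop {β : Blk (𝓞 K)} (hE : β.E ≠ 0) (hD : β.D1 ≠ 0) {π π' : Row (𝓞 K)}
    {r r' u v ρ ρ' u' v' : 𝓞 K} (h : Sol β π r r' u v) (h' : Sol β π' ρ ρ' u' v') {t : K}
    (he : et β π' = t • et β π) : (u' : K) = t ^ 2 * u ∧ (v' : K) = t ^ 2 * v := by
  have hE' : (β.E : K) ≠ 0 := by
    intro h0
    exact hE (NumberField.RingOfIntegers.coe_injective h0)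
  have hD' : (β.D1 : K) ≠ 0 := by
    intro h0
    exact hD (NumberField.RingOfIntegers.coe_injective h0)
  have h1 : (β.eb1 π' : K) = t * (β.eb1 π : K) := congrArg Prod.fst he
  have h2 : (β.eb2 π' : K) = t * (β.eb2 π : K) := congrArg Prod.snd he
  have h3 := congrArg (algebraMap (𝓞 K) K) (eu h)
  have h4 := congrArg (algebraMap (𝓞 K) K) (eu h')
  have h5 := congrArg (algebraMap (𝓞 K) K) (ev' h)
  have h6 := congrArg (algebraMap (𝓞 K) K) (ev' h')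
  unfold Blk.Ab at h3 h4
  unfold Blk.Ac M1 M2 at h5 h6
  simp only [map_mul, map_add, map_sub, map_pow] at h3 h4 h5 h6
  constructor
  · apply mul_left_cancel₀ hE'
    have h7 : (β.E : K) * (t ^ 2 * (u : K)) = t ^ 2 * ((β.E : K) * (u : K)) := by ring
    rw [h7]
    rw [show (β.E : K) * (u' : K) = _ from h4, show (β.E : K) * (u : K) = _ from h3]
    rw [show (algebraMap (𝓞 K) K) (β.eb1 π') = t * (β.eb1 π : K) from h1,
      show (algebraMap (𝓞 K) K) (β.eb2 π') = t * (β.eb2 π : K) from h2]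
    ring
  · apply mul_left_cancel₀ hE'
    apply mul_left_cancel₀ (pow_ne_zero 2 hD')
    have h7 : (β.D1 : K) ^ 2 * ((β.E : K) * (t ^ 2 * (v : K))) =
        t ^ 2 * ((β.D1 : K) ^ 2 * ((β.E : K) * (v : K))) := by ring
    rw [h7]
    rw [show (β.D1 : K) ^ 2 * ((β.E : K) * (v' : K)) = _ from h6,
      show (β.D1 : K) ^ 2 * ((β.E : K) * (v : K)) = _ from h5]
    rw [show (algebraMap (𝓞 K) K) (β.eb1 π') = t * (β.eb1 π : K) from h1,
      show (algebraMap (𝓞 K) K) (β.eb2 π') = t * (β.eb2 π : K) from h2]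
    ring

theorem nm_pos' {x : 𝓞 K} (hx : x ≠ 0) : 0 < nm (x : K) :=
  lt_of_lt_of_le one_pos (one_le_nm K x hx)

theorem Dt_pos {s t : ℝ} (hs : 0 < s) {β : Blk (𝓞 K)} (hD : β.D1 ≠ 0) (φ : K →+* ℂ) :
    0 < Dt s t β φ := by
  unfold Dt
  refine lt_max_of_lt_left (div_pos (norm_pos_iff.2 ?_) (by positivity))
  rw [map_ne_zero]
  intro h0
  exact hD (NumberField.RingOfIntegers.coe_injective h0)

theorem grp (K : Type) [Field K] [NumberField K] (M : ℕ) (hM : M ≠ 0) (C : ℝ) (hC : 1 ≤ C)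
    (m2 : ℕ) (hm2 : m2 ≠ 0) : ∃ C3 : ℝ, 0 < C3 ∧ ∀ s t : ℝ, 0 < s → 0 < t →
      ∀ β : Blk (𝓞 K), β.E ≠ 0 → β.D1 ≠ 0 → ∀ gb gc : Ideal (𝓞 K), gb ≠ ⊥ → gc ≠ ⊥ →
      ∀ (a1 b1 a2 b2 : (K →+* ℂ) → ℂ) (A B : (K →+* ℂ) → ℝ),
        (∀ φ, 0 < A φ ∧ 0 < B φ ∧ A φ * B φ ≤ 4 * C * ‖φ (β.E : K)‖) →
        (∀ φ, Dt s t β φ ^ 3 ≤ 16 * ‖φ (β.D1 : K)‖ ^ 2 * ‖a1 φ * b2 φ - b1 φ * a2 φ‖ ^ 2) →
        ∀ (S : Finset (𝓞 K × 𝓞 K)) (π : 𝓞 K × 𝓞 K → Row (𝓞 K)) (ρ ρ' : 𝓞 K × 𝓞 K → 𝓞 K),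
          (∀ x ∈ S, Adm M C s t x.1 x.2 ∧ Sol β (π x) (ρ x) (ρ' x) x.1 x.2) →
          (∀ x ∈ S, ∀ φ, ‖a1 φ * φ (β.eb1 (π x) : K) + b1 φ * φ (β.eb2 (π x) : K)‖ ≤ A φ ∧
            ‖a2 φ * φ (β.eb1 (π x) : K) + b2 φ * φ (β.eb2 (π x) : K)‖ ≤ B φ) →
          (∀ x ∈ S, ∀ y ∈ S, ∀ z ∈ gb * gc, β.E ∣ (m2 : 𝓞 K) * z * β.br (π x) (π y)) →
          (S.card : ℝ) ≤ C3 * (1 + Ideal.absNorm gb * Ideal.absNorm gc *
            ∏ φ : K →+* ℂ, Dt s t β φ ^ (-(3 / 2) : ℝ)) := by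
  classical
  obtain ⟨C1, hC1, h2d⟩ := two_dim K
  obtain ⟨C0, hC0, hline⟩ := line K M hM C hC
  set n := Fintype.card (K →+* ℂ) with hn
  refine ⟨C1 * (C0 + (32 * C) ^ n * (m2 : ℝ) ^ n), by positivity, ?_⟩
  intro s t hs ht β hE hD gb gc hgb hgc a1 b1 a2 b2 A B hAB hDt S π ρ ρ' hS hbox hbr
  have hinj : Set.InjOn (fun x => et β (π x)) (S : Set (𝓞 K × 𝓞 K)) := by
    intro x hx y hy hxy
    obtain ⟨h1, h2⟩ := et_inj hE hD (hS x hx).2 (hS y hy).2 hxy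
    exact Prod.ext h1 h2
  set S' := S.image fun x => et β (π x) with hS'
  have hcard : S'.card = S.card := Finset.card_image_of_injOn hinj
  set N : (K →+* ℂ) → K × K → ℝ := fun φ z =>
    max (‖a1 φ * φ z.1 + b1 φ * φ z.2‖ / A φ) (‖a2 φ * φ z.1 + b2 φ * φ z.2‖ / B φ) with hN
  have hIne : gb * gc ≠ ⊥ := mul_ne_zero hgb hgc
  have hIpos : (0 : ℝ) < Ideal.absNorm (gb * gc) := by
    have : Ideal.absNorm (gb * gc) ≠ 0 := by
      rw [Ne, Ideal.absNorm_eq_zero_iff]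
      exact hIne
    positivity
  have hm2' : (0 : ℝ) < m2 := by positivity
  have hnE := nm_pos' hE
  have hnD := nm_pos' hD
  set e0 : ℝ := nm (β.D1 : K) * nm (β.E : K) / ((m2 : ℝ) ^ n * Ideal.absNorm (gb * gc)) with he0
  set c : (K →+* ℂ) → ℝ := fun φ =>
    32 * C * ‖φ (β.E : K)‖ * ‖φ (β.D1 : K)‖ * Dt s t β φ ^ (-(3 / 2) : ℝ) with hc
  have hmain := h2d S' N c e0 C0 (GG β (gb * gc) m2) ?_ ?_ ?_ ?_ ?_ ?_ ?_ ?_ ?_ ?_ ?_
  · rw [hcard] at hmain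
    have h1 : (∏ φ, c φ) / e0 = (32 * C) ^ n * (m2 : ℝ) ^ n * (Ideal.absNorm gb *
        Ideal.absNorm gc * ∏ φ : K →+* ℂ, Dt s t β φ ^ (-(3 / 2) : ℝ)) := by
      have h2 : ∏ φ, c φ = (32 * C) ^ n * (nm (β.E : K) * nm (β.D1 : K) *
          ∏ φ : K →+* ℂ, Dt s t β φ ^ (-(3 / 2) : ℝ)) := by
        simp only [hc, Finset.prod_mul_distrib, Finset.prod_const, Finset.card_univ, nm]
        rw [hn]
        ring
      rw [h2, he0, map_mul]
      push_cast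
      have e1 : (Ideal.absNorm gb : ℝ) ≠ 0 := by
        have : Ideal.absNorm gb ≠ 0 := by
          rw [Ne, Ideal.absNorm_eq_zero_iff]
          exact hgb
        exact_mod_cast this
      have e2 : (Ideal.absNorm gc : ℝ) ≠ 0 := by
        have : Ideal.absNorm gc ≠ 0 := by
          rw [Ne, Ideal.absNorm_eq_zero_iff]
          exact hgc
        exact_mod_cast this
      field_simp
    rw [h1] at hmain
    refine hmain.trans ?_
    set V : ℝ := Ideal.absNorm gb * Ideal.absNorm gc *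
      ∏ φ : K →+* ℂ, Dt s t β φ ^ (-(3 / 2) : ℝ) with hV
    have hV0 : 0 ≤ V := by
      rw [hV]
      refine mul_nonneg (by positivity) (Finset.prod_nonneg fun φ _ => ?_)
      exact Real.rpow_nonneg (Dt_pos hs hD φ).le _
    have h3 : 0 ≤ (32 * C) ^ n * (m2 : ℝ) ^ n := by positivity
    rw [mul_assoc C1]
    refine mul_le_mul_of_nonneg_left ?_ hC1.le
    nlinarith [mul_nonneg (zero_le_one.trans hC0) hV0]
  · intro φ x
    exact le_max_of_le_left (div_nonneg (norm_nonneg _) (hAB φ).1.le)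
  · intro φ x y
    obtain ⟨hA, hB, -⟩ := hAB φ
    have e1 : a1 φ * φ (x - y).1 + b1 φ * φ (x - y).2 =
        (a1 φ * φ x.1 + b1 φ * φ x.2) - (a1 φ * φ y.1 + b1 φ * φ y.2) := by
      rw [Prod.fst_sub, Prod.snd_sub, map_sub, map_sub]
      ring
    have e2 : a2 φ * φ (x - y).1 + b2 φ * φ (x - y).2 =
        (a2 φ * φ x.1 + b2 φ * φ x.2) - (a2 φ * φ y.1 + b2 φ * φ y.2) := by
      rw [Prod.fst_sub, Prod.snd_sub, map_sub, map_sub]
      ring
    simp only [hN]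
    rw [e1, e2]
    refine max_le ?_ ?_
    · refine (div_le_div_of_nonneg_right (norm_sub_le _ _) hA.le).trans ?_
      rw [add_div]
      exact add_le_add (le_max_left _ _) (le_max_left _ _)
    · refine (div_le_div_of_nonneg_right (norm_sub_le _ _) hB.le).trans ?_
      rw [add_div]
      exact add_le_add (le_max_right _ _) (le_max_right _ _)
  · intro φ τ x
    have e1 : a1 φ * φ (τ • x).1 + b1 φ * φ (τ • x).2 =
        φ τ * (a1 φ * φ x.1 + b1 φ * φ x.2) := by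
      rw [Prod.smul_fst, Prod.smul_snd, smul_eq_mul, smul_eq_mul, map_mul, map_mul]
      ring
    have e2 : a2 φ * φ (τ • x).1 + b2 φ * φ (τ • x).2 =
        φ τ * (a2 φ * φ x.1 + b2 φ * φ x.2) := by
      rw [Prod.smul_fst, Prod.smul_snd, smul_eq_mul, smul_eq_mul, map_mul, map_mul]
      ring
    simp only [hN]
    rw [e1, e2, norm_mul, norm_mul, mul_div_assoc, mul_div_assoc,
      mul_max_of_nonneg _ _ (norm_nonneg _)]
  · intro φ
    have := Real.rpow_nonneg (Dt_pos (t := t) hs hD φ).le (-(3 / 2) : ℝ)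
    simp only [hc]
    positivity
  · -- the determinant
    intro φ x y
    obtain ⟨hA, hB, hABE⟩ := hAB φ
    set δ := a1 φ * b2 φ - b1 φ * a2 φ with hδ
    have hDp := Dt_pos (t := t) hs hD φ
    have h1 : 1 ≤ 4 * ‖φ (β.D1 : K)‖ * ‖δ‖ * Dt s t β φ ^ (-(3 / 2) : ℝ) := by
      have e1 : (Dt s t β φ ^ (3 / 2 : ℝ)) ^ 2 ≤ (4 * ‖φ (β.D1 : K)‖ * ‖δ‖) ^ 2 := by
        rw [← Real.rpow_natCast, ← Real.rpow_mul hDp.le]
        norm_num
        refine (hDt φ).trans (le_of_eq ?_)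
        ring
      have e2 := abs_le_of_sq_le_sq' e1 (by positivity)
      have e3 : Dt s t β φ ^ (-(3 / 2) : ℝ) = (Dt s t β φ ^ (3 / 2 : ℝ))⁻¹ :=
        Real.rpow_neg hDp.le _
      rw [e3, ← div_eq_mul_inv, le_div_iff₀ (Real.rpow_pos_of_pos hDp _), one_mul]
      exact e2.2
    set z1 := a1 φ * φ x.1 + b1 φ * φ x.2 with hz1
    set z2 := a2 φ * φ x.1 + b2 φ * φ x.2 with hz2
    set w1 := a1 φ * φ y.1 + b1 φ * φ y.2 with hw1
    set w2 := a2 φ * φ y.1 + b2 φ * φ y.2 with hw2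
    have h2 : φ (x.1 * y.2 - x.2 * y.1) * δ = z1 * w2 - w1 * z2 := by
      rw [map_sub, map_mul, map_mul, hδ, hz1, hz2, hw1, hw2]
      ring
    have hz1' : ‖z1‖ ≤ A φ * N φ x := by
      rw [← div_le_iff₀' hA]
      exact le_max_left _ _
    have hz2' : ‖z2‖ ≤ B φ * N φ x := by
      rw [← div_le_iff₀' hB]
      exact le_max_right _ _
    have hw1' : ‖w1‖ ≤ A φ * N φ y := by
      rw [← div_le_iff₀' hA]
      exact le_max_left _ _
    have hw2' : ‖w2‖ ≤ B φ * N φ y := by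
      rw [← div_le_iff₀' hB]
      exact le_max_right _ _
    have hNx : 0 ≤ N φ x := le_max_of_le_left (div_nonneg (norm_nonneg _) hA.le)
    have hNy : 0 ≤ N φ y := le_max_of_le_left (div_nonneg (norm_nonneg _) hA.le)
    have h3 : ‖φ (x.1 * y.2 - x.2 * y.1)‖ * ‖δ‖ ≤ 2 * (A φ * B φ) * (N φ x * N φ y) := by
      rw [← norm_mul, h2]
      refine (norm_sub_le _ _).trans ?_
      rw [norm_mul, norm_mul]
      have e1 : ‖z1‖ * ‖w2‖ ≤ (A φ * N φ x) * (B φ * N φ y) := by gcongr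
      have e2 : ‖w1‖ * ‖z2‖ ≤ (A φ * N φ y) * (B φ * N φ x) := by gcongr
      refine (add_le_add e1 e2).trans (le_of_eq ?_)
      ring
    have hDr := Real.rpow_nonneg hDp.le (-(3 / 2) : ℝ)
    calc ‖φ (x.1 * y.2 - x.2 * y.1)‖
        ≤ ‖φ (x.1 * y.2 - x.2 * y.1)‖ *
          (4 * ‖φ (β.D1 : K)‖ * ‖δ‖ * Dt s t β φ ^ (-(3 / 2) : ℝ)) :=
          le_mul_of_one_le_right (norm_nonneg _) h1
      _ = 4 * ‖φ (β.D1 : K)‖ * Dt s t β φ ^ (-(3 / 2) : ℝ) *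
          (‖φ (x.1 * y.2 - x.2 * y.1)‖ * ‖δ‖) := by ring
      _ ≤ 4 * ‖φ (β.D1 : K)‖ * Dt s t β φ ^ (-(3 / 2) : ℝ) *
          (2 * (A φ * B φ) * (N φ x * N φ y)) := by gcongr
      _ ≤ 4 * ‖φ (β.D1 : K)‖ * Dt s t β φ ^ (-(3 / 2) : ℝ) *
          (2 * (4 * C * ‖φ (β.E : K)‖) * (N φ x * N φ y)) := by gcongr
      _ = c φ * (N φ x * N φ y) := by
        simp only [hc]
        ring
  · intro x hx φ
    obtain ⟨y, hy, rfl⟩ := Finset.mem_image.1 hx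
    obtain ⟨hA, hB, -⟩ := hAB φ
    obtain ⟨h1, h2⟩ := hbox y hy φ
    refine max_le ?_ ?_
    · rw [div_le_one hA]
      exact h1
    · rw [div_le_one hB]
      exact h2
  · rw [he0]
    positivity
  · rintro _ ⟨ν, rfl, hν⟩ hne
    have hν0 : ν ≠ 0 := by
      rintro rfl
      apply hne
      rw [mul_zero, c0]
    have h1 := e_low hIne hm2 hν0 hν
    rw [← hn] at h1
    rw [he0, div_le_iff₀ (by positivity)]
    have h2 : nm (((β.D1 * ν : 𝓞 K)) : K) = nm (β.D1 : K) * nm (ν : K) := by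
      rw [← nm_mul, cm]
    rw [h2]
    calc nm (β.D1 : K) * nm (β.E : K)
        ≤ nm (β.D1 : K) * ((m2 : ℝ) ^ n * Ideal.absNorm (gb * gc) * nm (ν : K)) := by gcongr
      _ = nm (β.D1 : K) * nm (ν : K) * ((m2 : ℝ) ^ n * Ideal.absNorm (gb * gc)) := by ring
  · intro x hx y hy
    obtain ⟨x', hx', rfl⟩ := Finset.mem_image.1 hx
    obtain ⟨y', hy', rfl⟩ := Finset.mem_image.1 hy
    have h1 : (et β (π x')).1 * (et β (π y')).2 - (et β (π x')).2 * (et β (π y')).1 =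
        ((β.eb1 (π x') * β.eb2 (π y') - β.eb2 (π x') * β.eb1 (π y') : 𝓞 K) : K) := by
      unfold et
      rw [cs, cm, cm]
    have h2 := hbr x' hx' y' hy'
    rw [h1]
    rcases eb_br β (π x') (π y') with h3 | h3
    · rw [h3]
      exact ⟨_, rfl, h2⟩
    · rw [h3, cn]
      exact neg_mem ⟨_, rfl, h2⟩
  · exact zero_le_one.trans hC0
  · intro x hx T hT hdet
    obtain ⟨x', hx', rfl⟩ := Finset.mem_image.1 hx
    set T0 := S.filter fun y => et β (π y) ∈ T with hT0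
    have h1 : T ⊆ T0.image fun y => et β (π y) := by
      intro y hy
      obtain ⟨y', hy', rfl⟩ := Finset.mem_image.1 (hT hy)
      exact Finset.mem_image.2 ⟨y', Finset.mem_filter.2 ⟨hy', hy⟩, rfl⟩
    have h2 : T.card ≤ T0.card := (Finset.card_le_card h1).trans Finset.card_image_le
    refine (Nat.cast_le.2 h2).trans ?_
    have hx0 : et β (π x') ≠ 0 := et_ne hE (hS x' hx').2 (hS x' hx').1.u0
    have hpr : ∀ y ∈ T0, ∃ τ : K, (y.1 : K) = τ * x'.1 ∧ (y.2 : K) = τ * x'.2 := by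
      intro y hy
      obtain ⟨hyS, hyT⟩ := Finset.mem_filter.1 hy
      obtain ⟨τ, hτ⟩ := mul_of_det hx0 (hdet _ hyT)
      exact ⟨τ ^ 2, et_prop hE hD (hS x' hx').2 (hS y hyS).2 hτ⟩
    refine hline s t hs ht T0 (fun y hy => (hS y (Finset.mem_filter.1 hy).1).1) ?_
    intro y hy z hz
    obtain ⟨τ, e1, e2⟩ := hpr y hy
    obtain ⟨τ', e3, e4⟩ := hpr z hz
    apply NumberField.RingOfIntegers.coe_injective
    rw [map_mul, map_mul]
    show (y.1 : K) * (z.2 : K) = (y.2 : K) * (z.1 : K)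
    rw [e1, e2, e3, e4]
    ring

end H77.CO
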