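import Pool.Agent.H77.CO.Grp
import Pool.Agent.H77.CO.Fib
import Pool.Agent.H28.A4.Br

/-!
# W1 stage 2, completions lemma over `k`: one class
-/

open scoped NumberField

set_option autoImplicit false

noncomputable section

namespace H77.CO

open H88.A4

/-- the group of the brackets, divided by `n0` -/
def G2 (k : Type) {M : Type} [Field k] [NumberField k] [Field M] [NumberField M] [Algebra k M]
    (β : Blk (𝓞 M)) (I : Ideal (𝓞 M)) (m : ℕ) (n0 : 𝓞 M) : AddSubgroup k where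
  carrier := {g | ∃ n : 𝓞 M, algebraMap k M g * (n0 : M) = (n : M) ∧
    ∀ x ∈ I, β.E ∣ (m : 𝓞 M) * x * n}
  add_mem' := by
    rintro a b ⟨n, ha, hn⟩ ⟨n', hb, hn'⟩
    refine ⟨n + n', ?_, fun x hx => ?_⟩
    · rw [map_add, add_mul, ha, hb, ca]
    · rw [mul_add]
      exact dvd_add (hn x hx) (hn' x hx)
  zero_mem' := ⟨0, by rw [map_zero, zero_mul, c0], fun x _ => by
    rw [mul_zero]; exact dvd_zero _⟩
  neg_mem' := by
    rintro a ⟨n, ha, hn⟩
    refine ⟨-n, ?_, fun x hx => ?_⟩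
    · rw [map_neg, neg_mul, ha, cn]
    · rw [mul_neg]
      exact (hn x hx).neg_right

/-- Cramer's rule in the plane -/
theorem plane {M : Type} [Field M] (u v w : M × M) :
    (w.1 * v.2 - w.2 * v.1) * u.1 + (u.1 * w.2 - u.2 * w.1) * v.1 =
      (u.1 * v.2 - u.2 * v.1) * w.1 ∧
    (w.1 * v.2 - w.2 * v.1) * u.2 + (u.1 * w.2 - u.2 * w.1) * v.2 =
      (u.1 * v.2 - u.2 * v.1) * w.2 := by
  constructor <;> ring

theorem grp2 (k M : Type) [Field k] [NumberField k] [Field M] [NumberField M] [Algebra k M]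
    (τ : M ≃ₐ[k] M) (hτ : Invo k M τ) (m : ℕ) (hm : m ≠ 0) (C : ℝ) (hC : 1 ≤ C)
    (m2 : ℕ) (hm2 : m2 ≠ 0) : ∃ C3 : ℝ, 0 < C3 ∧ ∀ s : ℝ, 0 < s →
      ∀ β : Blk (𝓞 M), β.Cj τ → β.E ≠ 0 → β.D1 ≠ 0 → ∀ gb gc : Ideal (𝓞 M), gb ≠ ⊥ → gc ≠ ⊥ →
      ∀ (a1 b1 a2 b2 : (M →+* ℂ) → ℂ) (A B : (M →+* ℂ) → ℝ),
        (∀ φ, 0 < A φ ∧ 0 < B φ ∧ A φ * B φ ≤ 4 * C * ‖φ (β.E : M)‖) →
        (∀ φ, Dt s s β φ ^ 3 ≤ 16 * ‖φ (β.D1 : M)‖ ^ 2 * ‖a1 φ * b2 φ - b1 φ * a2 φ‖ ^ 2) →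
        ∀ (S : Finset (𝓞 M)) (π : 𝓞 M → Row (𝓞 M)) (ρ ρ' : 𝓞 M → 𝓞 M),
          (∀ x ∈ S, Adm m C s s x (tO τ x) ∧ (π x).Cj τ ∧
            Sol β (π x) (ρ x) (ρ' x) x (tO τ x)) →
          (∀ x ∈ S, ∀ φ, ‖a1 φ * φ (β.eb1 (π x) : M) + b1 φ * φ (β.eb2 (π x) : M)‖ ≤ A φ ∧
            ‖a2 φ * φ (β.eb1 (π x) : M) + b2 φ * φ (β.eb2 (π x) : M)‖ ≤ B φ) →
          (∀ x ∈ S, ∀ y ∈ S, ∀ z ∈ gb * gc, β.E ∣ (m2 : 𝓞 M) * z * β.br (π x) (π y)) →
          (S.card : ℝ) ≤ C3 * (1 + Real.sqrt (Ideal.absNorm gb * Ideal.absNorm gc) *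
            ∏ φ : M →+* ℂ, Dt s s β φ ^ (-(3 / 4) : ℝ)) := by
  classical
  obtain ⟨C1, hC1, h2d⟩ := two_dim k
  obtain ⟨C0, hC0, hline⟩ := line M m hm C hC
  have hdeg := hτ.deg
  set n := Fintype.card (M →+* ℂ) with hn
  set W : ℝ := (32 * C * m2) ^ n with hW
  have hm21 : (1 : ℝ) ≤ m2 := by exact_mod_cast Nat.one_le_iff_ne_zero.2 hm2
  have hW1 : 1 ≤ W := by
    refine one_le_pow₀ ?_
    nlinarith
  refine ⟨(1 + C1) * (C0 + W), by positivity, ?_⟩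
  intro s hs β hβ hE hD gb gc hgb hgc a1 b1 a2 b2 A B hAB hDt S π ρ ρ' hS hbox hbr
  set V : ℝ := Real.sqrt (Ideal.absNorm gb * Ideal.absNorm gc) *
    ∏ φ : M →+* ℂ, Dt s s β φ ^ (-(3 / 4) : ℝ) with hV
  have hV0 : 0 ≤ V := by
    rw [hV]
    refine mul_nonneg (Real.sqrt_nonneg _) (Finset.prod_nonneg fun φ _ => ?_)
    exact Real.rpow_nonneg (Dt_pos hs hD φ).le _
  have hE' : (β.E : M) ≠ 0 := fun h0 => hE (NumberField.RingOfIntegers.coe_injective h0)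
  have hD' : (β.D1 : M) ≠ 0 := fun h0 => hD (NumberField.RingOfIntegers.coe_injective h0)
  -- proportional elements
  have hprop : ∀ x ∈ S, ∀ y ∈ S, β.br (π x) (π y) = 0 →
      ∃ t : M, (y : M) = t * x ∧ ((tO τ y : 𝓞 M) : M) = t * (tO τ x : 𝓞 M) := by
    intro x hx y hy h0
    have h1 : (et β (π x)).1 * (et β (π y)).2 - (et β (π x)).2 * (et β (π y)).1 = 0 := by
      have h2 := Pool.Agent.H28.A4.eta_wedge β (π x) (π y)
      rw [h0, mul_zero] at h2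
      have h3 := congrArg (fun z : 𝓞 M => (z : M)) h2
      exact h3
    obtain ⟨t, ht⟩ := mul_of_det (et_ne hE (hS x hx).2.2 (hS x hx).1.u0) h1
    exact ⟨t ^ 2, et_prop hE hD (hS x hx).2.2 (hS y hy).2.2 ht⟩
  have hlineS : ∀ T : Finset (𝓞 M), T ⊆ S → (∃ x ∈ S, ∀ y ∈ T, β.br (π x) (π y) = 0) →
      (T.card : ℝ) ≤ C0 := by
    rintro T hT ⟨x, hx, hxy⟩
    have hinj : Function.Injective (fun y : 𝓞 M => (y, tO τ y)) := fun y z hyz =>
      congrArg Prod.fst hyz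
    rw [← Finset.card_image_of_injective T hinj]
    refine hline s s hs hs _ ?_ ?_
    · intro y hy
      obtain ⟨y', hy', rfl⟩ := Finset.mem_image.1 hy
      exact (hS y' (hT hy')).1
    · intro y hy z hz
      obtain ⟨y', hy', rfl⟩ := Finset.mem_image.1 hy
      obtain ⟨z', hz', rfl⟩ := Finset.mem_image.1 hz
      obtain ⟨t, e1, e2⟩ := hprop x hx y' (hT hy') (hxy y' hy')
      obtain ⟨t', e3, e4⟩ := hprop x hx z' (hT hz') (hxy z' hz')
      apply NumberField.RingOfIntegers.coe_injective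
      show (y' : M) * ((tO τ z' : 𝓞 M) : M) = ((tO τ y' : 𝓞 M) : M) * (z' : M)
      rw [e1, e2, e3, e4]
      ring
  by_cases hall : ∀ x ∈ S, ∀ y ∈ S, β.br (π x) (π y) = 0
  · -- one line
    rcases S.eq_empty_or_nonempty with rfl | ⟨x, hx⟩
    · rw [Finset.card_empty, Nat.cast_zero]
      positivity
    · have h1 := hlineS S subset_rfl ⟨x, hx, hall x hx⟩
      have h2 : 0 ≤ C1 * (C0 + W) := by positivity
      have h3 : 0 ≤ (1 + C1) * (C0 + W) * V := by positivity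
      nlinarith
  push Not at hall
  obtain ⟨x1, hx1, x2, hx2, hn12⟩ := hall
  set n0 : 𝓞 M := β.br (π x1) (π x2) with hn0
  have hn0' : (n0 : M) ≠ 0 := fun h0 => hn12 (NumberField.RingOfIntegers.coe_injective h0)
  have hwed : ∀ x y : 𝓞 M, (et β (π x)).1 * (et β (π y)).2 - (et β (π x)).2 * (et β (π y)).1 =
      (β.D1 : M) * (β.br (π x) (π y) : M) := by
    intro x y
    have h3 := congrArg (fun z : 𝓞 M => (z : M)) (Pool.Agent.H28.A4.eta_wedge β (π x) (π y))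
    exact h3
  have hk : ∀ x ∈ S, ∀ y ∈ S, ∃ z : k, algebraMap k M z * (n0 : M) = (β.br (π x) (π y) : M) := by
    intro x hx y hy
    have h1 : τ ((β.br (π x) (π y) : M) / (n0 : M)) = (β.br (π x) (π y) : M) / (n0 : M) := by
      have e1 := congrArg (fun z : 𝓞 M => (z : M)) (br_fix hτ hβ (hS x hx).2.1 (hS y hy).2.1)
      have e2 := congrArg (fun z : 𝓞 M => (z : M)) (br_fix hτ hβ (hS x1 hx1).2.1 (hS x2 hx2).2.1)
      have e1' : τ (β.br (π x) (π y) : M) = (β.br (π x) (π y) : M) := e1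
      have e2' : τ (n0 : M) = (n0 : M) := e2
      rw [map_div₀, e1', e2']
    obtain ⟨z, hz⟩ := (hτ.fix _).1 h1
    exact ⟨z, by rw [hz, div_mul_cancel₀ _ hn0']⟩
  have hex : ∀ x : 𝓞 M, ∃ z : k × k, x ∈ S →
      algebraMap k M z.1 * (n0 : M) = (β.br (π x) (π x2) : M) ∧
      algebraMap k M z.2 * (n0 : M) = (β.br (π x1) (π x) : M) := by
    intro x
    by_cases hx : x ∈ S
    · obtain ⟨z1, e1⟩ := hk x hx x2 hx2
      obtain ⟨z2, e2⟩ := hk x1 hx1 x hx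
      exact ⟨(z1, z2), fun _ => ⟨e1, e2⟩⟩
    · exact ⟨0, fun h => absurd h hx⟩
  choose Z hZ using hex
  set η1 := et β (π x1) with hη1
  set η2 := et β (π x2) with hη2
  set ω : M := η1.1 * η2.2 - η1.2 * η2.1 with hω
  have hω' : ω = (β.D1 : M) * (n0 : M) := hwed x1 x2
  have hω0 : ω ≠ 0 := by
    rw [hω']
    exact mul_ne_zero hD' hn0'
  set ev : k × k → M × M := fun z => (algebraMap k M z.1 * η1.1 + algebraMap k M z.2 * η2.1,
    algebraMap k M z.1 * η1.2 + algebraMap k M z.2 * η2.2) with hev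
  have hevS : ∀ x ∈ S, ev (Z x) = et β (π x) := by
    intro x hx
    obtain ⟨e1, e2⟩ := hZ x hx
    obtain ⟨p1, p2⟩ := plane η1 η2 (et β (π x))
    have w1 := hwed x x2
    have w2 := hwed x1 x
    rw [← hη2] at w1
    rw [← hη1] at w2
    rw [w1, w2, ← hω, hω', ← e1, ← e2] at p1 p2
    refine Prod.ext ?_ ?_
    · show algebraMap k M (Z x).1 * η1.1 + algebraMap k M (Z x).2 * η2.1 = _
      apply mul_left_cancel₀ (mul_ne_zero hD' hn0')
      linear_combination p1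
    · show algebraMap k M (Z x).1 * η1.2 + algebraMap k M (Z x).2 * η2.2 = _
      apply mul_left_cancel₀ (mul_ne_zero hD' hn0')
      linear_combination p2
  have hevdet : ∀ z w : k × k, algebraMap k M (z.1 * w.2 - z.2 * w.1) * ω =
      (ev z).1 * (ev w).2 - (ev z).2 * (ev w).1 := by
    intro z w
    simp only [hev, hω, map_sub, map_mul]
    ring
  have hinj : Set.InjOn Z (S : Set (𝓞 M)) := by
    intro x hx y hy hxy
    have h1 := hevS x hx
    rw [hxy, hevS y hy] at h1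
    exact (et_inj hE hD (hS x hx).2.2 (hS y hy).2.2 h1.symm).1
  set S' := S.image Z with hS'
  have hcard : S'.card = S.card := Finset.card_image_of_injOn hinj
  have hIne : gb * gc ≠ ⊥ := mul_ne_zero hgb hgc
  have hIpos : (0 : ℝ) < Ideal.absNorm (gb * gc) := by
    have : Ideal.absNorm (gb * gc) ≠ 0 := by
      rw [Ne, Ideal.absNorm_eq_zero_iff]
      exact hIne
    positivity
  have hm2' : (0 : ℝ) < m2 := by positivity
  have hnE := nm_pos' hE
  have hnD := nm_pos' hD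
  have hnn := nm_pos' hn12
  -- constants of the embeddings of `M`
  set cM : (M →+* ℂ) → ℝ := fun φ =>
    32 * C * ‖φ (β.E : M)‖ * ‖φ (β.D1 : M)‖ * Dt s s β φ ^ (-(3 / 2) : ℝ) / ‖φ ω‖ with hcM
  have hcM0 : ∀ φ, 0 ≤ cM φ := by
    intro φ
    have := Real.rpow_nonneg (Dt_pos (t := s) hs hD φ).le (-(3 / 2) : ℝ)
    simp only [hcM]
    positivity
  obtain ⟨e, he1, he2⟩ := ab_min (k := k) hdeg hcM0
  have heal : ∀ (ψ : k →+* ℂ) (z : k), (e ψ) (algebraMap k M z) = ψ z := fun ψ z =>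
    RingHom.congr_fun (he1 ψ) z
  set N : (k →+* ℂ) → k × k → ℝ := fun ψ z =>
    max (‖a1 (e ψ) * (e ψ) (ev z).1 + b1 (e ψ) * (e ψ) (ev z).2‖ / A (e ψ))
      (‖a2 (e ψ) * (e ψ) (ev z).1 + b2 (e ψ) * (e ψ) (ev z).2‖ / B (e ψ)) with hN
  set e0 : ℝ := Real.sqrt (nm (β.E : M) / ((m2 : ℝ) ^ n * Ideal.absNorm (gb * gc) *
    nm (n0 : M))) with he0
  have he0sq : e0 ^ 2 = nm (β.E : M) / ((m2 : ℝ) ^ n * Ideal.absNorm (gb * gc) *
    nm (n0 : M)) := Real.sq_sqrt (by positivity)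
  have he0pos : 0 < e0 := Real.sqrt_pos.2 (by positivity)
  have hmain := h2d S' N (fun ψ => cM (e ψ)) e0 C0 (G2 k β (gb * gc) m2 n0)
    ?_ ?_ ?_ ?_ ?_ ?_ ?_ ?_ ?_ ?_ ?_
  · rw [hcard] at hmain
    refine hmain.trans ?_
    have h1 : (∏ ψ : k →+* ℂ, cM (e ψ)) / e0 ≤ W * V := by
      have hq0 : 0 ≤ ∏ ψ : k →+* ℂ, cM (e ψ) := Finset.prod_nonneg fun ψ _ => hcM0 _
      have h2 : ((∏ ψ : k →+* ℂ, cM (e ψ)) / e0) ^ 2 ≤ (W * V) ^ 2 := by
        have h3 : ∏ φ : M →+* ℂ, cM φ = (32 * C) ^ n * nm (β.E : M) *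
            (∏ φ : M →+* ℂ, Dt s s β φ ^ (-(3 / 2) : ℝ)) / nm (n0 : M) := by
          have h4 : ∏ φ : M →+* ℂ, cM φ = (32 * C) ^ n * nm (β.E : M) * nm (β.D1 : M) *
              (∏ φ : M →+* ℂ, Dt s s β φ ^ (-(3 / 2) : ℝ)) / nm ω := by
            simp only [hcM, Finset.prod_div_distrib, Finset.prod_mul_distrib, Finset.prod_const,
              Finset.card_univ, nm]
            rw [← hn]
            ring
          have h5 : nm ω = nm (β.D1 : M) * nm (n0 : M) := by rw [hω', nm_mul]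
          rw [h4, h5]
          field_simp
        have h6 : (∏ φ : M →+* ℂ, Dt s s β φ ^ (-(3 / 4) : ℝ)) ^ 2 =
            ∏ φ : M →+* ℂ, Dt s s β φ ^ (-(3 / 2) : ℝ) := by
          rw [← Finset.prod_pow]
          refine Finset.prod_congr rfl fun φ _ => ?_
          rw [← Real.rpow_natCast, ← Real.rpow_mul (Dt_pos hs hD φ).le]
          norm_num
        have h7 : V ^ 2 = Ideal.absNorm (gb * gc) *
            ∏ φ : M →+* ℂ, Dt s s β φ ^ (-(3 / 2) : ℝ) := by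
          rw [hV, mul_pow, h6, Real.sq_sqrt (by positivity), map_mul]
          push_cast
          ring
        rw [div_pow, he0sq, mul_pow, h7]
        have hP0 : 0 ≤ ∏ φ : M →+* ℂ, Dt s s β φ ^ (-(3 / 2) : ℝ) :=
          Finset.prod_nonneg fun φ _ => Real.rpow_nonneg (Dt_pos hs hD φ).le _
        rw [div_le_iff₀ (by positivity)]
        refine he2.trans ?_
        rw [h3]
        have hWW : (32 * C) ^ n * (m2 : ℝ) ^ n ≤ W ^ 2 := by
          have : W = (32 * C) ^ n * (m2 : ℝ) ^ n := by rw [hW, mul_pow]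
          rw [← this, pow_two]
          nlinarith
        have h8 : W ^ 2 * (Ideal.absNorm (gb * gc) *
            ∏ φ : M →+* ℂ, Dt s s β φ ^ (-(3 / 2) : ℝ)) *
              (nm (β.E : M) / ((m2 : ℝ) ^ n * Ideal.absNorm (gb * gc) * nm (n0 : M))) =
            (W ^ 2 / (m2 : ℝ) ^ n) * (nm (β.E : M) *
              (∏ φ : M →+* ℂ, Dt s s β φ ^ (-(3 / 2) : ℝ)) / nm (n0 : M)) := by
          field_simp
        rw [h8]
        have h9 : (32 * C) ^ n * nm (β.E : M) *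
            (∏ φ : M →+* ℂ, Dt s s β φ ^ (-(3 / 2) : ℝ)) / nm (n0 : M) =
            (32 * C) ^ n * (nm (β.E : M) *
              (∏ φ : M →+* ℂ, Dt s s β φ ^ (-(3 / 2) : ℝ)) / nm (n0 : M)) := by ring
        rw [h9]
        refine mul_le_mul_of_nonneg_right ?_ (by positivity)
        rw [le_div_iff₀ (by positivity)]
        exact hWW
      exact (abs_le_of_sq_le_sq' h2 (by positivity)).2
    have h3 : C1 * (C0 + (∏ ψ : k →+* ℂ, cM (e ψ)) / e0) ≤ C1 * (C0 + W * V) := by gcongr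
    refine h3.trans ?_
    have h4 : 0 ≤ C0 * V := by positivity
    have h5 : 0 ≤ W * V := by positivity
    have h6 : C1 * (C0 + W * V) ≤ C1 * ((C0 + W) * (1 + V)) := by
      refine mul_le_mul_of_nonneg_left ?_ hC1.le
      nlinarith
    have h7 : 0 ≤ (C0 + W) * (1 + V) := by positivity
    nlinarith
  · intro ψ z
    exact le_max_of_le_left (div_nonneg (norm_nonneg _) (hAB _).1.le)
  · intro ψ z w
    obtain ⟨hA, hB, -⟩ := hAB (e ψ)
    have f1 : (ev (z - w)).1 = (ev z).1 - (ev w).1 := by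
      simp only [hev, Prod.fst_sub, Prod.snd_sub, map_sub]
      ring
    have f2 : (ev (z - w)).2 = (ev z).2 - (ev w).2 := by
      simp only [hev, Prod.fst_sub, Prod.snd_sub, map_sub]
      ring
    have e1 : a1 (e ψ) * (e ψ) (ev (z - w)).1 + b1 (e ψ) * (e ψ) (ev (z - w)).2 =
        (a1 (e ψ) * (e ψ) (ev z).1 + b1 (e ψ) * (e ψ) (ev z).2) -
          (a1 (e ψ) * (e ψ) (ev w).1 + b1 (e ψ) * (e ψ) (ev w).2) := by
      rw [f1, f2, map_sub, map_sub]
      ring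
    have e2 : a2 (e ψ) * (e ψ) (ev (z - w)).1 + b2 (e ψ) * (e ψ) (ev (z - w)).2 =
        (a2 (e ψ) * (e ψ) (ev z).1 + b2 (e ψ) * (e ψ) (ev z).2) -
          (a2 (e ψ) * (e ψ) (ev w).1 + b2 (e ψ) * (e ψ) (ev w).2) := by
      rw [f1, f2, map_sub, map_sub]
      ring
    simp only [hN]
    rw [e1, e2]
    refine max_le ?_ ?_
    · refine (div_le_div_of_nonneg_right (norm_sub_le _ _) hA.le).trans ?_
      rw [add_div]
      exact add_le_add (le_max_left _ _) (le_max_left _ _)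
    · refine (div_le_div_of_nonneg_right (norm_sub_le _ _) hB.le).trans ?_
      rw [add_div]
      exact add_le_add (le_max_right _ _) (le_max_right _ _)
  · intro ψ t z
    have f1 : (ev (t • z)).1 = algebraMap k M t * (ev z).1 := by
      simp only [hev, Prod.smul_fst, Prod.smul_snd, smul_eq_mul, map_mul]
      ring
    have f2 : (ev (t • z)).2 = algebraMap k M t * (ev z).2 := by
      simp only [hev, Prod.smul_fst, Prod.smul_snd, smul_eq_mul, map_mul]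
      ring
    have e1 : a1 (e ψ) * (e ψ) (ev (t • z)).1 + b1 (e ψ) * (e ψ) (ev (t • z)).2 =
        ψ t * (a1 (e ψ) * (e ψ) (ev z).1 + b1 (e ψ) * (e ψ) (ev z).2) := by
      rw [f1, f2, map_mul, map_mul, heal]
      ring
    have e2 : a2 (e ψ) * (e ψ) (ev (t • z)).1 + b2 (e ψ) * (e ψ) (ev (t • z)).2 =
        ψ t * (a2 (e ψ) * (e ψ) (ev z).1 + b2 (e ψ) * (e ψ) (ev z).2) := by
      rw [f1, f2, map_mul, map_mul, heal]
      ring
    simp only [hN]
    rw [e1, e2, norm_mul, norm_mul, mul_div_assoc, mul_div_assoc,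
      mul_max_of_nonneg _ _ (norm_nonneg _)]
  · intro ψ
    exact hcM0 _
  · -- the determinant
    intro ψ z w
    set φ := e ψ with hφ
    obtain ⟨hA, hB, hABE⟩ := hAB φ
    set δ := a1 φ * b2 φ - b1 φ * a2 φ with hδ
    have hDp := Dt_pos (t := s) hs hD φ
    have hφω : 0 < ‖φ ω‖ := by
      rw [norm_pos_iff, map_ne_zero]
      exact hω0
    have h1 : 1 ≤ 4 * ‖φ (β.D1 : M)‖ * ‖δ‖ * Dt s s β φ ^ (-(3 / 2) : ℝ) := by
      have e1 : (Dt s s β φ ^ (3 / 2 : ℝ)) ^ 2 ≤ (4 * ‖φ (β.D1 : M)‖ * ‖δ‖) ^ 2 := by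
        rw [← Real.rpow_natCast, ← Real.rpow_mul hDp.le]
        norm_num
        refine (hDt φ).trans (le_of_eq ?_)
        ring
      have e2 := abs_le_of_sq_le_sq' e1 (by positivity)
      have e3 : Dt s s β φ ^ (-(3 / 2) : ℝ) = (Dt s s β φ ^ (3 / 2 : ℝ))⁻¹ :=
        Real.rpow_neg hDp.le _
      rw [e3, ← div_eq_mul_inv, le_div_iff₀ (Real.rpow_pos_of_pos hDp _), one_mul]
      exact e2.2
    set x := ev z with hx
    set y := ev w with hy
    set z1 := a1 φ * φ x.1 + b1 φ * φ x.2 with hz1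
    set z2 := a2 φ * φ x.1 + b2 φ * φ x.2 with hz2
    set w1 := a1 φ * φ y.1 + b1 φ * φ y.2 with hw1
    set w2 := a2 φ * φ y.1 + b2 φ * φ y.2 with hw2
    have h2 : φ (x.1 * y.2 - x.2 * y.1) * δ = z1 * w2 - w1 * z2 := by
      rw [map_sub, map_mul, map_mul, hδ, hz1, hz2, hw1, hw2]
      ring
    have hz1' : ‖z1‖ ≤ A φ * N ψ z := by
      rw [← div_le_iff₀' hA]
      exact le_max_left _ _
    have hz2' : ‖z2‖ ≤ B φ * N ψ z := by
      rw [← div_le_iff₀' hB]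
      exact le_max_right _ _
    have hw1' : ‖w1‖ ≤ A φ * N ψ w := by
      rw [← div_le_iff₀' hA]
      exact le_max_left _ _
    have hw2' : ‖w2‖ ≤ B φ * N ψ w := by
      rw [← div_le_iff₀' hB]
      exact le_max_right _ _
    have hNx : 0 ≤ N ψ z := le_max_of_le_left (div_nonneg (norm_nonneg _) hA.le)
    have hNy : 0 ≤ N ψ w := le_max_of_le_left (div_nonneg (norm_nonneg _) hA.le)
    have h3 : ‖φ (x.1 * y.2 - x.2 * y.1)‖ * ‖δ‖ ≤ 2 * (A φ * B φ) * (N ψ z * N ψ w) := by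
      rw [← norm_mul, h2]
      refine (norm_sub_le _ _).trans ?_
      rw [norm_mul, norm_mul]
      have e1 : ‖z1‖ * ‖w2‖ ≤ (A φ * N ψ z) * (B φ * N ψ w) := by gcongr
      have e2 : ‖w1‖ * ‖z2‖ ≤ (A φ * N ψ w) * (B φ * N ψ z) := by gcongr
      refine (add_le_add e1 e2).trans (le_of_eq ?_)
      ring
    have hDr := Real.rpow_nonneg hDp.le (-(3 / 2) : ℝ)
    have h4 : ‖φ (x.1 * y.2 - x.2 * y.1)‖ ≤ 32 * C * ‖φ (β.E : M)‖ * ‖φ (β.D1 : M)‖ *
        Dt s s β φ ^ (-(3 / 2) : ℝ) * (N ψ z * N ψ w) := by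
      calc ‖φ (x.1 * y.2 - x.2 * y.1)‖
          ≤ ‖φ (x.1 * y.2 - x.2 * y.1)‖ *
            (4 * ‖φ (β.D1 : M)‖ * ‖δ‖ * Dt s s β φ ^ (-(3 / 2) : ℝ)) :=
            le_mul_of_one_le_right (norm_nonneg _) h1
        _ = 4 * ‖φ (β.D1 : M)‖ * Dt s s β φ ^ (-(3 / 2) : ℝ) *
            (‖φ (x.1 * y.2 - x.2 * y.1)‖ * ‖δ‖) := by ring
        _ ≤ 4 * ‖φ (β.D1 : M)‖ * Dt s s β φ ^ (-(3 / 2) : ℝ) *
            (2 * (A φ * B φ) * (N ψ z * N ψ w)) := by gcongr
        _ ≤ 4 * ‖φ (β.D1 : M)‖ * Dt s s β φ ^ (-(3 / 2) : ℝ) *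
            (2 * (4 * C * ‖φ (β.E : M)‖) * (N ψ z * N ψ w)) := by gcongr
        _ = 32 * C * ‖φ (β.E : M)‖ * ‖φ (β.D1 : M)‖ *
            Dt s s β φ ^ (-(3 / 2) : ℝ) * (N ψ z * N ψ w) := by ring
    have h5 : ‖ψ (z.1 * w.2 - z.2 * w.1)‖ * ‖φ ω‖ = ‖φ (x.1 * y.2 - x.2 * y.1)‖ := by
      rw [← heal, ← norm_mul, ← hφ, ← map_mul, hevdet]
    have h6 : ‖ψ (z.1 * w.2 - z.2 * w.1)‖ = ‖φ (x.1 * y.2 - x.2 * y.1)‖ / ‖φ ω‖ := by
      rw [eq_div_iff hφω.ne']
      exact h5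
    rw [h6, div_le_iff₀ hφω]
    refine h4.trans (le_of_eq ?_)
    simp only [hcM]
    field_simp
  · intro z hz ψ
    obtain ⟨x, hx, rfl⟩ := Finset.mem_image.1 hz
    obtain ⟨hA, hB, -⟩ := hAB (e ψ)
    obtain ⟨h1, h2⟩ := hbox x hx (e ψ)
    have h3 := hevS x hx
    simp only [hN]
    rw [h3]
    refine max_le ?_ ?_
    · rw [div_le_one hA]
      exact h1
    · rw [div_le_one hB]
      exact h2
  · exact he0pos
  · rintro g ⟨ν, hg, hν⟩ hne
    have hν0 : ν ≠ 0 := by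
      rintro rfl
      rw [c0, mul_eq_zero] at hg
      rcases hg with hg | hg
      · exact hne ((map_eq_zero _).1 hg)
      · exact hn0' hg
    have h1 := e_low hIne hm2 hν0 hν
    rw [← hn] at h1
    have h2 : nm g ^ 2 * nm (n0 : M) = nm (ν : M) := by
      rw [← nm_alg hdeg, ← nm_mul, hg]
    have h3 : e0 ^ 2 ≤ nm g ^ 2 := by
      rw [he0sq, div_le_iff₀ (by positivity)]
      calc nm (β.E : M) ≤ (m2 : ℝ) ^ n * Ideal.absNorm (gb * gc) * nm (ν : M) := h1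
        _ = nm g ^ 2 * ((m2 : ℝ) ^ n * Ideal.absNorm (gb * gc) * nm (n0 : M)) := by
          rw [← h2]
          ring
    have h4 : 0 ≤ nm g := Finset.prod_nonneg fun _ _ => norm_nonneg _
    exact (abs_le_of_sq_le_sq' h3 h4).2
  · intro z hz w hw
    obtain ⟨x, hx, rfl⟩ := Finset.mem_image.1 hz
    obtain ⟨y, hy, rfl⟩ := Finset.mem_image.1 hw
    refine ⟨β.br (π x) (π y), ?_, hbr x hx y hy⟩
    apply mul_left_cancel₀ hD'
    have h1 := hevdet (Z x) (Z y)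
    rw [hevS x hx, hevS y hy, hwed, hω'] at h1
    linear_combination h1
  · exact zero_le_one.trans hC0
  · intro z hz T hT hdet
    obtain ⟨x, hx, rfl⟩ := Finset.mem_image.1 hz
    set T0 := S.filter fun y => Z y ∈ T with hT0
    have h1 : T ⊆ T0.image Z := by
      intro w hw
      obtain ⟨y, hy, rfl⟩ := Finset.mem_image.1 (hT hw)
      exact Finset.mem_image.2 ⟨y, Finset.mem_filter.2 ⟨hy, hw⟩, rfl⟩
    have h2 : T.card ≤ T0.card := (Finset.card_le_card h1).trans Finset.card_image_le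
    refine (Nat.cast_le.2 h2).trans ?_
    refine hlineS T0 (Finset.filter_subset _ _) ⟨x, hx, fun y hy => ?_⟩
    obtain ⟨hyS, hyT⟩ := Finset.mem_filter.1 hy
    have h3 := hevdet (Z x) (Z y)
    rw [hdet _ hyT, map_zero, zero_mul, hevS x hx, hevS y hyS, hwed] at h3
    have h4 : (β.br (π x) (π y) : M) = 0 := by
      rcases mul_eq_zero.1 h3.symm with h5 | h5
      · exact absurd h5 hD'
      · exact h5
    exact NumberField.RingOfIntegers.coe_injective h4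

end H77.CO
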