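import Pool.Agent.H88.A4.Geo

/-!
# W1, completions lemma: the rank two dichotomy

`nm x = ∏ φ, ‖φ x‖`. `S` is a finite subset of the plane `K × K`, `N φ` seminorms with `N φ x ≤ 1` on `S`, `|det (x, y)|_φ ≤ c φ N φ x N φ y`; the determinants of
pairs of elements of `S` are in an additive group whose nonzero elements have norm at least `e0`; every line through an element of `S` contains at most `C0`
elements of `S`. Then `S` has at most `C1 (C0 + ∏ c / e0)` elements.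

PROOF. `C2` = the constant of `box_card` (may be taken `≥ 1`), `n = #(K →+* ℂ)`, `C1 = 4 ^ (n + 1) * (C2 + 1) ^ 2`, `V = ∏ c / e0 ≥ 0`. For `x ≠ 0`: `0 < N φ x` (if `N φ x = 0` then `det (x, y) = 0`
for all `y`, take `y = (0, 1), (1, 0)`; `φ` is injective). `P x = ∏ φ, N φ x`, `P (t • x) = nm t * P x`. If `#S ≤ 1`: if `x ∈ S` then `1 = #S ≤ C0` (`T = S = {x}`). Otherwise the finite set `D` of the differences `x - y`, `x ≠ y` in `S`, is not
empty; let `w ∈ D` have minimal `P w > 0` (`Finset.exists_min_image`); `N φ w ≤ 2`, `P w ≤ 2 ^ n`.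
(1) If `det (w, y) = 0` for all `y ∈ S`: the elements of `S` are multiples of `w` (`w ≠ 0`: `det (w, y) = 0` gives `y = t • w`), so `det (x, y) = 0` for all `x, y ∈ S`: `#S ≤ C0`.
(2) Otherwise some `g = det (w, y) ≠ 0`, `g ∈ G` (difference of two determinants), `e0 ≤ nm g ≤ ∏ c φ N φ w N φ y ≤ (∏ c) P w`, so `1 ≤ V P w`. The values `det (w, y)`, `y ∈ S`: distinct ones differ by a
nonzero element of `G`, of norm at least `e0`, and by at most `2 c φ N φ w` at `φ` (if this is 0 for some `φ` replace the radius by `2 c φ N φ w + ε`? simpler: `V P w ≥ 1` gives `c φ > 0` for all `φ`): at most `C2 (1 + 2 ^ n V P w)` values (`box_card`).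
For a value `g` let `y0` be in the fibre; `y - y0 = t y • w`; for `y ≠ y'` in the fibre `y - y' = (t y - t y') • w ∈ D`, so `P w ≤ nm (t y - t y') P w`, `1 ≤ nm (t y - t y')`, and `‖φ (t y - t y')‖ N φ w = N φ (y - y') ≤ 2`: at most
`C2 (1 + 2 ^ n / P w)` elements in a fibre (`box_card` with `ν = 1`, `R φ = 2 / N φ w`). Together (`Finset.card_le_mul_card_image`): `#S ≤ C2 ^ 2 (1 + 2 ^ n V P w) (1 + 2 ^ n / P w) ≤ C2 ^ 2 * 4 * 4 ^ n * V` with
`1 ≤ V P w`, `1 / P w ≤ V`, `P w ≤ 2 ^ n`: `1 ≤ V P w ≤ 2 ^ n V`.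
-/

open scoped NumberField

set_option autoImplicit false

noncomputable section

namespace H77.CO

open H88.A4

theorem two_dim (K : Type) [Field K] [NumberField K] : ∃ C1 : ℝ, 0 < C1 ∧
    ∀ (S : Finset (K × K)) (N : (K →+* ℂ) → K × K → ℝ) (c : (K →+* ℂ) → ℝ) (e0 C0 : ℝ)
      (G : AddSubgroup K),
      (∀ φ x, 0 ≤ N φ x) → (∀ φ x y, N φ (x - y) ≤ N φ x + N φ y) →
      (∀ φ (t : K) x, N φ (t • x) = ‖φ t‖ * N φ x) → (∀ φ, 0 ≤ c φ) →
      (∀ φ (x y : K × K), ‖φ (x.1 * y.2 - x.2 * y.1)‖ ≤ c φ * (N φ x * N φ y)) →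
      (∀ x ∈ S, ∀ φ, N φ x ≤ 1) → 0 < e0 → (∀ g ∈ G, g ≠ 0 → e0 ≤ nm g) →
      (∀ x ∈ S, ∀ y ∈ S, x.1 * y.2 - x.2 * y.1 ∈ G) → 0 ≤ C0 →
      (∀ x ∈ S, ∀ T : Finset (K × K), T ⊆ S → (∀ y ∈ T, x.1 * y.2 - x.2 * y.1 = 0) →
        (T.card : ℝ) ≤ C0) →
      (S.card : ℝ) ≤ C1 * (C0 + (∏ φ, c φ) / e0) := by
  classical
  obtain ⟨C, hC, hbox⟩ := box_card K
  set n := Fintype.card (K →+* ℂ) with hn
  set C2 : ℝ := C + 1 with hC2
  have hC2' : C ≤ C2 := by rw [hC2]; linarith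
  have hC21 : 1 ≤ C2 := by rw [hC2]; linarith
  refine ⟨4 ^ (n + 1) * C2 ^ 2, by positivity, ?_⟩
  intro S N c e0 C0 G hN0 hNs hNm hc0 hdet hS1 he0 hG hSG hC0 hline
  have hV0 : 0 ≤ (∏ φ, c φ) / e0 := div_nonneg (Finset.prod_nonneg fun φ _ => hc0 φ) he0.le
  have hC11 : (1 : ℝ) ≤ 4 ^ (n + 1) * C2 ^ 2 := by
    have h1 : (1 : ℝ) ≤ 4 ^ (n + 1) := one_le_pow₀ (by norm_num)
    have h2 : (1 : ℝ) ≤ C2 ^ 2 := one_le_pow₀ hC21
    calc (1 : ℝ) = 1 * 1 := by ring
      _ ≤ 4 ^ (n + 1) * C2 ^ 2 := mul_le_mul h1 h2 zero_le_one (by positivity)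
  -- the case of a line
  have hfin1 : (S.card : ℝ) ≤ C0 → (S.card : ℝ) ≤ 4 ^ (n + 1) * C2 ^ 2 * (C0 + (∏ φ, c φ) / e0) := by
    intro h
    calc (S.card : ℝ) ≤ C0 := h
      _ ≤ C0 + (∏ φ, c φ) / e0 := by linarith
      _ = 1 * (C0 + (∏ φ, c φ) / e0) := by ring
      _ ≤ _ := mul_le_mul_of_nonneg_right hC11 (by linarith)
  have hlineS : (∀ x ∈ S, ∀ y ∈ S, x.1 * y.2 - x.2 * y.1 = 0) →
      (S.card : ℝ) ≤ 4 ^ (n + 1) * C2 ^ 2 * (C0 + (∏ φ, c φ) / e0) := by
    intro h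
    rcases S.eq_empty_or_nonempty with hE | ⟨x, hx⟩
    · rw [hE, Finset.card_empty, Nat.cast_zero]
      exact mul_nonneg (le_trans zero_le_one hC11) (by linarith)
    · exact hfin1 (hline x hx S (Finset.Subset.refl _) (h x hx))
  -- positivity of the seminorms
  have hNpos : ∀ φ (x : K × K), x ≠ 0 → 0 < N φ x := by
    intro φ x hx
    refine lt_of_le_of_ne (hN0 φ x) ?_
    intro h0
    apply hx
    have h1 : ∀ y : K × K, x.1 * y.2 - x.2 * y.1 = 0 := by
      intro y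
      have h2 := hdet φ x y
      rw [← h0, zero_mul, mul_zero] at h2
      have h3 : φ (x.1 * y.2 - x.2 * y.1) = 0 := norm_le_zero_iff.mp h2
      exact (map_eq_zero φ).mp h3
    have ha := h1 (0, 1)
    have hb := h1 (1, 0)
    simp only [mul_one, mul_zero, sub_zero, zero_sub, neg_eq_zero] at ha hb
    exact Prod.ext ha hb
  by_cases hone : ∀ x ∈ S, ∀ y ∈ S, x = y
  · refine hlineS ?_
    intro x hx y hy
    rw [hone x hx y hy]
    ring
  push_neg at hone
  obtain ⟨xa, hxa, xb, hxb, hxab⟩ := hone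
  set D : Finset (K × K) := ((S ×ˢ S).filter (fun p => p.1 ≠ p.2)).image (fun p => p.1 - p.2) with hD
  have hDmem : ∀ x ∈ S, ∀ y ∈ S, x ≠ y → x - y ∈ D := by
    intro x hx y hy hxy
    rw [hD]
    exact Finset.mem_image.mpr ⟨(x, y), Finset.mem_filter.mpr ⟨Finset.mem_product.mpr ⟨hx, hy⟩, hxy⟩, rfl⟩
  have hDne : D.Nonempty := ⟨_, hDmem xa hxa xb hxb hxab⟩
  obtain ⟨w, hwD, hwmin⟩ := Finset.exists_min_image D (fun w => ∏ φ, N φ w) hDne
  obtain ⟨⟨x0, x1⟩, hx01, hw⟩ := Finset.mem_image.mp (hD ▸ hwD)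
  rw [Finset.mem_filter, Finset.mem_product] at hx01
  obtain ⟨⟨hx0, hx1⟩, hx01'⟩ := hx01
  simp only at hx0 hx1 hx01' hw
  have hw0 : w ≠ 0 := by
    rw [← hw]
    exact sub_ne_zero.mpr hx01'
  have hNw : ∀ φ, 0 < N φ w := fun φ => hNpos φ w hw0
  have hNw2 : ∀ φ, N φ w ≤ 2 := by
    intro φ
    rw [← hw]
    have h1 := hNs φ x0 x1
    have h2 := hS1 x0 hx0 φ
    have h3 := hS1 x1 hx1 φ
    linarith
  set P : ℝ := ∏ φ, N φ w with hP
  have hPpos : 0 < P := Finset.prod_pos fun φ _ => hNw φ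
  have hP2 : P ≤ 2 ^ n := by
    calc P ≤ ∏ φ : K →+* ℂ, (2 : ℝ) := Finset.prod_le_prod (fun φ _ => (hNw φ).le) (fun φ _ => hNw2 φ)
      _ = 2 ^ n := by rw [Finset.prod_const, Finset.card_univ]
  have hwG : ∀ y ∈ S, w.1 * y.2 - w.2 * y.1 ∈ G := by
    intro y hy
    have h1 := G.sub_mem (hSG x0 hx0 y hy) (hSG x1 hx1 y hy)
    have e : w.1 * y.2 - w.2 * y.1 = x0.1 * y.2 - x0.2 * y.1 - (x1.1 * y.2 - x1.2 * y.1) := by
      rw [← hw]
      simp only [Prod.fst_sub, Prod.snd_sub]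
      ring
    rw [e]
    exact h1
  have hdw : ∀ y ∈ S, ∀ φ, ‖φ (w.1 * y.2 - w.2 * y.1)‖ ≤ c φ * N φ w := by
    intro y hy φ
    refine le_trans (hdet φ w y) ?_
    have h1 : N φ w * N φ y ≤ N φ w * 1 := mul_le_mul_of_nonneg_left (hS1 y hy φ) (hNw φ).le
    rw [mul_one] at h1
    exact mul_le_mul_of_nonneg_left h1 (hc0 φ)
  by_cases hall : ∀ y ∈ S, w.1 * y.2 - w.2 * y.1 = 0
  · refine hlineS ?_
    intro x hx y hy
    have h1 := hall x hx
    have h2 := hall y hy
    rcases eq_or_ne w.1 0 with h3 | h3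
    · have h4 : w.2 ≠ 0 := by
        intro h4
        exact hw0 (Prod.ext h3 h4)
      have h5 : w.2 * (x.1 * y.2 - x.2 * y.1) = 0 := by
        linear_combination (-y.2) * h1 + x.2 * h2
      exact (mul_eq_zero.mp h5).resolve_left h4
    · have h5 : w.1 * (x.1 * y.2 - x.2 * y.1) = 0 := by
        linear_combination (-y.1) * h1 + x.1 * h2
      exact (mul_eq_zero.mp h5).resolve_left h3
  push_neg at hall
  obtain ⟨y1, hy1, hy10⟩ := hall
  have hVP : e0 ≤ (∏ φ, c φ) * P := by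
    calc e0 ≤ nm (w.1 * y1.2 - w.2 * y1.1) := hG _ (hwG y1 hy1) hy10
      _ = ∏ φ : K →+* ℂ, ‖φ (w.1 * y1.2 - w.2 * y1.1)‖ := rfl
      _ ≤ ∏ φ, c φ * N φ w :=
          Finset.prod_le_prod (fun φ _ => norm_nonneg _) (fun φ _ => hdw y1 hy1 φ)
      _ = (∏ φ, c φ) * P := by rw [Finset.prod_mul_distrib]
  have hcpos : 0 < ∏ φ, c φ := by
    by_contra hcn
    rw [not_lt] at hcn
    have h1 : (∏ φ, c φ) * P ≤ 0 := mul_nonpos_of_nonpos_of_nonneg hcn hPpos.le
    linarith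
  have hcφ : ∀ φ, 0 < c φ := by
    intro φ
    refine lt_of_le_of_ne (hc0 φ) ?_
    intro h0
    have h1 : ∏ φ, c φ = 0 := Finset.prod_eq_zero (Finset.mem_univ φ) h0.symm
    linarith
  set V : ℝ := (∏ φ, c φ) / e0 with hV
  have hVP1 : 1 ≤ V * P := by
    rw [hV, div_mul_eq_mul_div, one_le_div he0]
    exact hVP
  -- the values
  set dw : K × K → K := fun y => w.1 * y.2 - w.2 * y.1 with hdwdef
  have hA : ((S.image dw).card : ℝ) ≤ C2 * (1 + 2 ^ n * V * P) := by
    have h1 := hbox e0 he0 (fun φ => 2 * (c φ * N φ w))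
      (fun φ => by have := hcφ φ; have := hNw φ; positivity) (S.image dw) ?_ ?_
    · have e : (∏ φ : K →+* ℂ, 2 * (c φ * N φ w)) / e0 = 2 ^ n * V * P := by
        rw [Finset.prod_mul_distrib, Finset.prod_mul_distrib, Finset.prod_const, Finset.card_univ, hV, hP]
        ring
      rw [e] at h1
      refine le_trans h1 (mul_le_mul_of_nonneg_right hC2' ?_)
      have : 0 ≤ V := hV0
      positivity
    · intro x hx y hy hxy
      obtain ⟨x', hx', rfl⟩ := Finset.mem_image.mp hx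
      obtain ⟨y', hy', rfl⟩ := Finset.mem_image.mp hy
      exact hG _ (G.sub_mem (hwG x' hx') (hwG y' hy')) (sub_ne_zero.mpr hxy)
    · intro x hx y hy φ
      obtain ⟨x', hx', rfl⟩ := Finset.mem_image.mp hx
      obtain ⟨y', hy', rfl⟩ := Finset.mem_image.mp hy
      have h2 := hdw x' hx' φ
      have h3 := hdw y' hy' φ
      rw [map_sub]
      refine le_trans (norm_sub_le _ _) ?_
      simp only [hdwdef]
      linarith
  -- the fibres
  set τ : K × K → K := fun z => if w.1 = 0 then z.2 / w.2 else z.1 / w.1 with hτ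
  have hτsub : ∀ z z' : K × K, τ (z - z') = τ z - τ z' := by
    intro z z'
    simp only [hτ]
    split_ifs with h
    · rw [Prod.snd_sub, sub_div]
    · rw [Prod.fst_sub, sub_div]
  have hτw : ∀ z : K × K, w.1 * z.2 - w.2 * z.1 = 0 → z = τ z • w := by
    intro z hz
    simp only [hτ]
    split_ifs with h
    · have h4 : w.2 ≠ 0 := by
        intro h4
        exact hw0 (Prod.ext h h4)
      rw [h, zero_mul, zero_sub, neg_eq_zero] at hz
      have h5 : z.1 = 0 := (mul_eq_zero.mp hz).resolve_left h4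
      refine Prod.ext ?_ ?_
      · rw [Prod.smul_fst, h5, h, smul_zero]
      · rw [Prod.smul_snd, smul_eq_mul, div_mul_cancel₀ _ h4]
    · refine Prod.ext ?_ ?_
      · rw [Prod.smul_fst, smul_eq_mul, div_mul_cancel₀ _ h]
      · rw [Prod.smul_snd, smul_eq_mul]
        field_simp
        linear_combination hz
  have hfib : ∀ g ∈ S.image dw, (((S.filter (fun y => dw y = g)).card : ℕ) : ℝ) ≤
      C2 * (1 + 2 ^ n / P) := by
    intro g hg
    have hdiff : ∀ y ∈ S.filter (fun y => dw y = g), ∀ y' ∈ S.filter (fun y => dw y = g),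
        y - y' = (τ y - τ y') • w := by
      intro y hy y' hy'
      rw [Finset.mem_filter] at hy hy'
      rw [← hτsub]
      apply hτw
      have h1 := hy.2
      have h2 := hy'.2
      simp only [hdwdef] at h1 h2
      rw [Prod.fst_sub, Prod.snd_sub]
      linear_combination h1 - h2
    have hinj : Set.InjOn τ (S.filter (fun y => dw y = g) : Finset (K × K)) := by
      intro y hy y' hy' hyy
      have h1 := hdiff y hy y' hy'
      rw [hyy, sub_self, zero_smul] at h1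
      exact sub_eq_zero.mp h1
    have hcard := Finset.card_image_of_injOn hinj
    rw [← hcard]
    have h1 := hbox 1 one_pos (fun φ => 2 / N φ w)
      (fun φ => by have := hNw φ; positivity) ((S.filter (fun y => dw y = g)).image τ) ?_ ?_
    · have e : (∏ φ : K →+* ℂ, 2 / N φ w) / 1 = 2 ^ n / P := by
        rw [Finset.prod_div_distrib, Finset.prod_const, Finset.card_univ, div_one]
      rw [e] at h1
      refine le_trans h1 (mul_le_mul_of_nonneg_right hC2' ?_)
      positivity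
    · intro x hx y hy hxy
      obtain ⟨x', hx', rfl⟩ := Finset.mem_image.mp hx
      obtain ⟨y', hy', rfl⟩ := Finset.mem_image.mp hy
      have h2 := hdiff x' hx' y' hy'
      have hne : x' ≠ y' := fun h => hxy (by rw [h])
      have h3 := hwmin _ (hDmem x' (Finset.mem_filter.mp hx').1 y' (Finset.mem_filter.mp hy').1 hne)
      have h4 : ∏ φ, N φ (x' - y') = nm (τ x' - τ y') * P := by
        rw [hP]
        simp only [nm]
        rw [← Finset.prod_mul_distrib]
        refine Finset.prod_congr rfl fun φ _ => ?_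
        rw [h2, hNm]
      rw [h4] at h3
      have h5 : 1 * P ≤ nm (τ x' - τ y') * P := by
        rw [one_mul]
        exact h3
      exact le_of_mul_le_mul_right h5 hPpos
    · intro x hx y hy φ
      obtain ⟨x', hx', rfl⟩ := Finset.mem_image.mp hx
      obtain ⟨y', hy', rfl⟩ := Finset.mem_image.mp hy
      have h2 := hdiff x' hx' y' hy'
      rw [le_div_iff₀ (hNw φ), ← hNm, ← h2]
      have h3 := hNs φ x' y'
      have h4 := hS1 x' (Finset.mem_filter.mp hx').1 φ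
      have h5 := hS1 y' (Finset.mem_filter.mp hy').1 φ
      linarith
  -- together
  have hsum : (S.card : ℝ) ≤ ((S.image dw).card : ℝ) * (C2 * (1 + 2 ^ n / P)) := by
    rw [Finset.card_eq_sum_card_image dw S, Nat.cast_sum, ← nsmul_eq_mul]
    exact Finset.sum_le_card_nsmul _ _ _ hfib
  have h2n : (1 : ℝ) ≤ 2 ^ n := one_le_pow₀ (by norm_num)
  have hVnn : 0 ≤ V := hV0
  have hb1 : 1 + 2 ^ n * V * P ≤ 2 * 2 ^ n * (V * P) := by
    have h1 : V * P ≤ 2 ^ n * (V * P) := by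
      calc V * P = 1 * (V * P) := by ring
        _ ≤ 2 ^ n * (V * P) := mul_le_mul_of_nonneg_right h2n (by positivity)
    linarith
  have hb2 : 1 + 2 ^ n / P ≤ 2 * 2 ^ n / P := by
    have h1 : 1 ≤ 2 ^ n / P := by
      rw [one_le_div hPpos]
      exact hP2
    have e : 2 * 2 ^ n / P = 2 ^ n / P + 2 ^ n / P := by ring
    rw [e]
    linarith
  have hC20 : 0 ≤ C2 := le_trans zero_le_one hC21
  calc (S.card : ℝ) ≤ ((S.image dw).card : ℝ) * (C2 * (1 + 2 ^ n / P)) := hsum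
    _ ≤ (C2 * (1 + 2 ^ n * V * P)) * (C2 * (1 + 2 ^ n / P)) :=
        mul_le_mul_of_nonneg_right hA (by positivity)
    _ ≤ (C2 * (2 * 2 ^ n * (V * P))) * (C2 * (2 * 2 ^ n / P)) := by
        refine mul_le_mul (mul_le_mul_of_nonneg_left hb1 hC20) (mul_le_mul_of_nonneg_left hb2 hC20)
          (by positivity) (by positivity)
    _ = 4 * (2 ^ n * 2 ^ n) * C2 ^ 2 * V := by
        field_simp
        ring
    _ = 4 ^ (n + 1) * C2 ^ 2 * V := by
        rw [← mul_pow, show (2 : ℝ) * 2 = 4 by norm_num, pow_succ]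
        ring
    _ ≤ 4 ^ (n + 1) * C2 ^ 2 * (C0 + V) := by
        refine mul_le_mul_of_nonneg_left ?_ (by positivity)
        linarith

end H77.CO
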